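import Mathlib

set_option autoImplicit false

/-!
MP_ec87e6_co: 1-planar chordal graphs of toughness 3/2.  Computable part: states and checks.
-/

namespace OPC

/-- traces `(p, q, M)`: a path from `p` to `q` through the vertices of the mask `M` -/
abbrev Tr := List (ℕ × ℕ × ℕ)
/-- cuts `(Y, m)` -/
abbrev Cu := List (ℕ × ℕ)

/-- `a ⊆ b` for masks -/
def sub (a b : ℕ) : Bool := Nat.land a b == a

/-- number of elements of a mask below `2 ^ 6` -/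
def pc (M : ℕ) : ℕ :=
  M % 2 + M / 2 % 2 + M / 4 % 2 + M / 8 % 2 + M / 16 % 2 + M / 32 % 2

/-- value of the best cut with removed set inside `R` -/
def best (R : ℕ) : Cu → ℕ
  | [] => 0
  | x :: c => if sub x.1 R then max x.2 (best R c) else best R c

def tot (R : ℕ) : List Cu → ℕ
  | [] => 0
  | c :: l => best R c + tot R l

/-- violation of toughness in a bag with `r` vertices, the first `t` of them in the adhesion set -/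
def viol (r t : ℕ) (cs : List Cu) : Bool :=
  (List.range (2 ^ r)).any fun R =>
    (0 < tot R cs && 2 * pc R < tot R cs + 3) ||
    (R % 2 ^ t == 2 ^ t - 1 && R != 2 ^ r - 1 && 2 * pc R < tot R cs + 6)

/-- is the cut `(Y, m)` available? -/
def cutOK (r t : ℕ) (cs : List Cu) (x : ℕ × ℕ) : Bool :=
  (List.range (2 ^ (r - t))).any fun u =>
    (0 < tot (x.1 + u * 2 ^ t) cs && x.2 + 2 * pc u ≤ tot (x.1 + u * 2 ^ t) cs) ||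
    (x.1 == 2 ^ t - 1 && u != 2 ^ (r - t) - 1 && x.2 + 2 * pc u ≤ tot (x.1 + u * 2 ^ t) cs + 3)

/-- all ways to pick an element of a list -/
def picks {α : Type} : List α → List (α × List α)
  | [] => []
  | a :: l => (a, l) :: (picks l).map fun x => (x.1, a :: x.2)

/-- one use of the trace `x` in the direction from `p` to `q`, `rec` continues from `q` -/
def stp (cur b rem : ℕ) (rest : List Tr) (rec : ℕ → ℕ → List Tr → Bool) (p q M : ℕ) : Bool :=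
  p == cur && sub M rem &&
    ((q == b && rem ^^^ M == 0 && rest.isEmpty) ||
      ((rem ^^^ M).testBit q && rec q (rem ^^^ M ^^^ 2 ^ q) rest))

/-- is there a path from `cur` to `b` covering the mask `rem` and all the kids? -/
def go : ℕ → ℕ → ℕ → ℕ → List Tr → Bool
  | 0, _, _, _, _ => false
  | f + 1, cur, b, rem, ks =>
    (rem == 0 && ks.isEmpty) ||
    ((picks ks).any fun y => y.1.any fun x =>
      stp cur b rem y.2 (fun q r l => go f q b r l) x.1 x.2.1 x.2.2 ||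
      stp cur b rem y.2 (fun q r l => go f q b r l) x.2.1 x.1 x.2.2) ||
    ((List.range 6).any fun j => rem.testBit j && go f j b (rem ^^^ 2 ^ j) ks)

/-- the labelled states of 4-pieces, grouped by their cuts -/
def LS : List (Cu × List Tr) :=
  [([(15, 3)],
    [[(0, 1, 0), (0, 2, 0), (0, 3, 0), (1, 2, 0), (1, 3, 0), (2, 3, 0)],
     [(0, 1, 0), (0, 1, 4), (0, 2, 0), (0, 2, 2), (1, 2, 0), (1, 3, 0), (1, 3, 4), (2, 3, 0), (2, 3, 2)],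
     [(0, 1, 0), (0, 1, 4), (0, 2, 0), (0, 3, 0), (0, 3, 4), (1, 2, 0), (1, 2, 1), (2, 3, 0), (2, 3, 1)],
     [(0, 1, 0), (0, 1, 8), (0, 2, 0), (0, 2, 8), (0, 3, 0), (1, 3, 0), (1, 3, 1), (2, 3, 0), (2, 3, 1)],
     [(0, 1, 0), (0, 1, 8), (0, 3, 0), (0, 3, 2), (1, 2, 0), (1, 2, 8), (1, 3, 0), (2, 3, 0), (2, 3, 2)],
     [(0, 1, 0), (0, 2, 0), (0, 2, 2), (0, 3, 0), (0, 3, 2), (1, 2, 0), (1, 2, 1), (1, 3, 0), (1, 3, 1)],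
     [(0, 2, 0), (0, 2, 8), (0, 3, 0), (0, 3, 4), (1, 2, 0), (1, 2, 8), (1, 3, 0), (1, 3, 4), (2, 3, 0)]]),
   ([(15, 4)],
    [[(0, 1, 0), (0, 1, 4), (0, 1, 8), (0, 2, 0), (0, 2, 2), (0, 2, 8), (1, 3, 0), (1, 3, 1), (1, 3, 4), (2, 3, 0), (2, 3, 1), (2, 3, 2)],
     [(0, 1, 0), (0, 1, 4), (0, 1, 8), (0, 3, 0), (0, 3, 2), (0, 3, 4), (1, 2, 0), (1, 2, 1), (1, 2, 8), (2, 3, 0), (2, 3, 1), (2, 3, 2)],
     [(0, 2, 0), (0, 2, 2), (0, 2, 8), (0, 3, 0), (0, 3, 2), (0, 3, 4), (1, 2, 0), (1, 2, 1), (1, 2, 8), (1, 3, 0), (1, 3, 1), (1, 3, 4)],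
     [(0, 1, 0), (0, 1, 4), (0, 1, 8), (0, 2, 0), (0, 2, 2), (0, 2, 8), (0, 3, 2), (0, 3, 4), (1, 2, 0), (1, 2, 1), (1, 2, 8), (1, 3, 4), (2, 3, 2)],
     [(0, 1, 0), (0, 1, 4), (0, 1, 8), (0, 2, 0), (0, 2, 2), (0, 2, 8), (0, 3, 2), (1, 2, 0), (1, 2, 1), (1, 2, 8), (1, 3, 1), (2, 3, 1), (2, 3, 2)],
     [(0, 1, 0), (0, 1, 4), (0, 1, 8), (0, 2, 0), (0, 2, 2), (0, 2, 8), (0, 3, 4), (1, 2, 0), (1, 2, 1), (1, 2, 8), (1, 3, 1), (1, 3, 4), (2, 3, 1)],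
     [(0, 1, 0), (0, 1, 4), (0, 1, 8), (0, 2, 2), (0, 2, 8), (0, 3, 0), (0, 3, 2), (0, 3, 4), (1, 2, 8), (1, 3, 0), (1, 3, 1), (1, 3, 4), (2, 3, 2)],
     [(0, 1, 0), (0, 1, 4), (0, 1, 8), (0, 2, 2), (0, 3, 0), (0, 3, 2), (0, 3, 4), (1, 2, 1), (1, 3, 0), (1, 3, 1), (1, 3, 4), (2, 3, 1), (2, 3, 2)],
     [(0, 1, 0), (0, 1, 4), (0, 1, 8), (0, 2, 8), (0, 3, 0), (0, 3, 2), (0, 3, 4), (1, 2, 1), (1, 2, 8), (1, 3, 0), (1, 3, 1), (1, 3, 4), (2, 3, 1)],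
     [(0, 1, 4), (0, 1, 8), (0, 2, 0), (0, 2, 2), (0, 2, 8), (0, 3, 0), (0, 3, 2), (0, 3, 4), (1, 2, 8), (1, 3, 4), (2, 3, 0), (2, 3, 1), (2, 3, 2)],
     [(0, 1, 4), (0, 1, 8), (0, 2, 8), (0, 3, 4), (1, 2, 0), (1, 2, 1), (1, 2, 8), (1, 3, 0), (1, 3, 1), (1, 3, 4), (2, 3, 0), (2, 3, 1), (2, 3, 2)],
     [(0, 1, 4), (0, 2, 0), (0, 2, 2), (0, 2, 8), (0, 3, 0), (0, 3, 2), (0, 3, 4), (1, 2, 1), (1, 3, 1), (1, 3, 4), (2, 3, 0), (2, 3, 1), (2, 3, 2)],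
     [(0, 1, 4), (0, 2, 2), (0, 3, 2), (0, 3, 4), (1, 2, 0), (1, 2, 1), (1, 2, 8), (1, 3, 0), (1, 3, 1), (1, 3, 4), (2, 3, 0), (2, 3, 1), (2, 3, 2)],
     [(0, 1, 8), (0, 2, 0), (0, 2, 2), (0, 2, 8), (0, 3, 0), (0, 3, 2), (0, 3, 4), (1, 2, 1), (1, 2, 8), (1, 3, 1), (2, 3, 0), (2, 3, 1), (2, 3, 2)],
     [(0, 1, 8), (0, 2, 2), (0, 2, 8), (0, 3, 2), (1, 2, 0), (1, 2, 1), (1, 2, 8), (1, 3, 0), (1, 3, 1), (1, 3, 4), (2, 3, 0), (2, 3, 1), (2, 3, 2)]]),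
   ([(7, 2), (15, 3)],
    [[(0, 1, 0), (0, 1, 4), (0, 2, 0), (0, 2, 2), (0, 3, 2), (0, 3, 4), (1, 2, 0), (1, 2, 1), (1, 3, 1), (1, 3, 4), (2, 3, 1), (2, 3, 2)]]),
   ([(11, 2), (15, 3)],
    [[(0, 1, 0), (0, 1, 8), (0, 2, 2), (0, 2, 8), (0, 3, 0), (0, 3, 2), (1, 2, 1), (1, 2, 8), (1, 3, 0), (1, 3, 1), (2, 3, 1), (2, 3, 2)]]),
   ([(13, 2), (15, 3)],
    [[(0, 1, 4), (0, 1, 8), (0, 2, 0), (0, 2, 8), (0, 3, 0), (0, 3, 4), (1, 2, 1), (1, 2, 8), (1, 3, 1), (1, 3, 4), (2, 3, 0), (2, 3, 1)]]),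
   ([(14, 2), (15, 3)],
    [[(0, 1, 4), (0, 1, 8), (0, 2, 2), (0, 2, 8), (0, 3, 2), (0, 3, 4), (1, 2, 0), (1, 2, 8), (1, 3, 0), (1, 3, 4), (2, 3, 0), (2, 3, 2)]]),
   ([(11, 2), (15, 5)],
    [[(0, 1, 0), (0, 1, 4), (0, 1, 8), (0, 2, 0), (0, 2, 2), (0, 2, 8), (0, 3, 2), (1, 2, 0), (1, 2, 1), (1, 2, 8), (2, 3, 2)],
     [(0, 1, 0), (0, 1, 4), (0, 1, 8), (0, 2, 0), (0, 2, 2), (0, 2, 8), (1, 2, 0), (1, 2, 1), (1, 2, 8), (1, 3, 1), (2, 3, 1)],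
     [(0, 1, 8), (0, 2, 0), (0, 2, 2), (0, 2, 8), (0, 3, 0), (0, 3, 2), (0, 3, 4), (1, 2, 8), (2, 3, 0), (2, 3, 1), (2, 3, 2)],
     [(0, 1, 8), (0, 2, 8), (1, 2, 0), (1, 2, 1), (1, 2, 8), (1, 3, 0), (1, 3, 1), (1, 3, 4), (2, 3, 0), (2, 3, 1), (2, 3, 2)],
     [(0, 2, 0), (0, 2, 2), (0, 2, 8), (0, 3, 0), (0, 3, 2), (0, 3, 4), (1, 2, 1), (1, 3, 1), (2, 3, 0), (2, 3, 1), (2, 3, 2)],
     [(0, 2, 2), (0, 3, 2), (1, 2, 0), (1, 2, 1), (1, 2, 8), (1, 3, 0), (1, 3, 1), (1, 3, 4), (2, 3, 0), (2, 3, 1), (2, 3, 2)],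
     [(0, 1, 8), (0, 2, 2), (0, 2, 8), (0, 3, 2), (1, 2, 1), (1, 2, 8), (1, 3, 1), (2, 3, 1), (2, 3, 2)]]),
   ([(14, 2), (15, 5)],
    [[(0, 1, 0), (0, 1, 4), (0, 1, 8), (0, 2, 0), (0, 2, 2), (0, 2, 8), (0, 3, 2), (1, 2, 0), (1, 2, 1), (1, 2, 8), (2, 3, 2)],
     [(0, 1, 0), (0, 1, 4), (0, 1, 8), (0, 2, 0), (0, 2, 2), (0, 2, 8), (0, 3, 4), (1, 2, 0), (1, 2, 1), (1, 2, 8), (1, 3, 4)],
     [(0, 1, 0), (0, 1, 4), (0, 1, 8), (0, 2, 2), (0, 3, 0), (0, 3, 2), (0, 3, 4), (1, 3, 0), (1, 3, 1), (1, 3, 4), (2, 3, 2)],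
     [(0, 1, 0), (0, 1, 4), (0, 1, 8), (0, 2, 8), (0, 3, 0), (0, 3, 2), (0, 3, 4), (1, 2, 8), (1, 3, 0), (1, 3, 1), (1, 3, 4)],
     [(0, 1, 4), (0, 2, 0), (0, 2, 2), (0, 2, 8), (0, 3, 0), (0, 3, 2), (0, 3, 4), (1, 3, 4), (2, 3, 0), (2, 3, 1), (2, 3, 2)],
     [(0, 1, 8), (0, 2, 0), (0, 2, 2), (0, 2, 8), (0, 3, 0), (0, 3, 2), (0, 3, 4), (1, 2, 8), (2, 3, 0), (2, 3, 1), (2, 3, 2)],
     [(0, 1, 4), (0, 1, 8), (0, 2, 2), (0, 2, 8), (0, 3, 2), (0, 3, 4), (1, 2, 8), (1, 3, 4), (2, 3, 2)]]),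
   ([(13, 2), (15, 5)],
    [[(0, 1, 0), (0, 1, 4), (0, 1, 8), (0, 2, 0), (0, 2, 2), (0, 2, 8), (0, 3, 4), (1, 2, 0), (1, 2, 1), (1, 2, 8), (1, 3, 4)],
     [(0, 1, 0), (0, 1, 4), (0, 1, 8), (0, 2, 0), (0, 2, 2), (0, 2, 8), (1, 2, 0), (1, 2, 1), (1, 2, 8), (1, 3, 1), (2, 3, 1)],
     [(0, 1, 0), (0, 1, 4), (0, 1, 8), (0, 2, 8), (0, 3, 0), (0, 3, 2), (0, 3, 4), (1, 2, 8), (1, 3, 0), (1, 3, 1), (1, 3, 4)],
     [(0, 1, 0), (0, 1, 4), (0, 1, 8), (0, 3, 0), (0, 3, 2), (0, 3, 4), (1, 2, 1), (1, 3, 0), (1, 3, 1), (1, 3, 4), (2, 3, 1)],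
     [(0, 1, 4), (0, 3, 4), (1, 2, 0), (1, 2, 1), (1, 2, 8), (1, 3, 0), (1, 3, 1), (1, 3, 4), (2, 3, 0), (2, 3, 1), (2, 3, 2)],
     [(0, 1, 8), (0, 2, 8), (1, 2, 0), (1, 2, 1), (1, 2, 8), (1, 3, 0), (1, 3, 1), (1, 3, 4), (2, 3, 0), (2, 3, 1), (2, 3, 2)],
     [(0, 1, 4), (0, 1, 8), (0, 2, 8), (0, 3, 4), (1, 2, 1), (1, 2, 8), (1, 3, 1), (1, 3, 4), (2, 3, 1)]]),
   ([(7, 2), (15, 5)],
    [[(0, 1, 0), (0, 1, 4), (0, 1, 8), (0, 2, 2), (0, 3, 0), (0, 3, 2), (0, 3, 4), (1, 3, 0), (1, 3, 1), (1, 3, 4), (2, 3, 2)],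
     [(0, 1, 0), (0, 1, 4), (0, 1, 8), (0, 3, 0), (0, 3, 2), (0, 3, 4), (1, 2, 1), (1, 3, 0), (1, 3, 1), (1, 3, 4), (2, 3, 1)],
     [(0, 1, 4), (0, 2, 0), (0, 2, 2), (0, 2, 8), (0, 3, 0), (0, 3, 2), (0, 3, 4), (1, 3, 4), (2, 3, 0), (2, 3, 1), (2, 3, 2)],
     [(0, 1, 4), (0, 3, 4), (1, 2, 0), (1, 2, 1), (1, 2, 8), (1, 3, 0), (1, 3, 1), (1, 3, 4), (2, 3, 0), (2, 3, 1), (2, 3, 2)],
     [(0, 2, 0), (0, 2, 2), (0, 2, 8), (0, 3, 0), (0, 3, 2), (0, 3, 4), (1, 2, 1), (1, 3, 1), (2, 3, 0), (2, 3, 1), (2, 3, 2)],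
     [(0, 2, 2), (0, 3, 2), (1, 2, 0), (1, 2, 1), (1, 2, 8), (1, 3, 0), (1, 3, 1), (1, 3, 4), (2, 3, 0), (2, 3, 1), (2, 3, 2)],
     [(0, 1, 4), (0, 2, 2), (0, 3, 2), (0, 3, 4), (1, 2, 1), (1, 3, 1), (1, 3, 4), (2, 3, 1), (2, 3, 2)]]),
   ([(7, 3), (15, 3)],
    [[(0, 1, 0), (0, 1, 4), (0, 2, 0), (0, 2, 2), (0, 3, 2), (0, 3, 4), (1, 2, 0), (1, 3, 4), (2, 3, 2)],
     [(0, 1, 0), (0, 1, 4), (0, 2, 0), (0, 3, 4), (1, 2, 0), (1, 2, 1), (1, 3, 1), (1, 3, 4), (2, 3, 1)],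
     [(0, 1, 0), (0, 2, 0), (0, 2, 2), (0, 3, 2), (1, 2, 0), (1, 2, 1), (1, 3, 1), (2, 3, 1), (2, 3, 2)]]),
   ([(11, 3), (15, 3)],
    [[(0, 1, 0), (0, 1, 8), (0, 2, 2), (0, 2, 8), (0, 3, 0), (0, 3, 2), (1, 2, 8), (1, 3, 0), (2, 3, 2)],
     [(0, 1, 0), (0, 1, 8), (0, 2, 8), (0, 3, 0), (1, 2, 1), (1, 2, 8), (1, 3, 0), (1, 3, 1), (2, 3, 1)],
     [(0, 1, 0), (0, 2, 2), (0, 3, 0), (0, 3, 2), (1, 2, 1), (1, 3, 0), (1, 3, 1), (2, 3, 1), (2, 3, 2)]]),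
   ([(13, 3), (15, 3)],
    [[(0, 1, 4), (0, 1, 8), (0, 2, 0), (0, 2, 8), (0, 3, 0), (0, 3, 4), (1, 2, 8), (1, 3, 4), (2, 3, 0)],
     [(0, 1, 4), (0, 2, 0), (0, 3, 0), (0, 3, 4), (1, 2, 1), (1, 3, 1), (1, 3, 4), (2, 3, 0), (2, 3, 1)],
     [(0, 1, 8), (0, 2, 0), (0, 2, 8), (0, 3, 0), (1, 2, 1), (1, 2, 8), (1, 3, 1), (2, 3, 0), (2, 3, 1)]]),
   ([(14, 3), (15, 3)],
    [[(0, 1, 4), (0, 1, 8), (0, 2, 8), (0, 3, 4), (1, 2, 0), (1, 2, 8), (1, 3, 0), (1, 3, 4), (2, 3, 0)],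
     [(0, 1, 4), (0, 2, 2), (0, 3, 2), (0, 3, 4), (1, 2, 0), (1, 3, 0), (1, 3, 4), (2, 3, 0), (2, 3, 2)],
     [(0, 1, 8), (0, 2, 2), (0, 2, 8), (0, 3, 2), (1, 2, 0), (1, 2, 8), (1, 3, 0), (2, 3, 0), (2, 3, 2)]])]

/-- the conclusion for 3-pieces -/
def good3 (r : ℕ) (ks : List Tr) : Bool :=
  go 9 0 1 (2 ^ r - 8) ks && go 9 0 2 (2 ^ r - 8) ks && go 9 1 2 (2 ^ r - 8) ks

/-- the conclusion for 4-pieces (the bag has 5 vertices) -/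
def good4 (cs : List Cu) (ks : List Tr) : Bool :=
  LS.any fun g => (g.1.all fun x => cutOK 5 4 cs x) &&
    g.2.any fun tr => tr.all fun x => go 9 x.1 x.2.1 (16 + x.2.2) ks

/-- kid with three attachments -/
def kid3 (a b c : ℕ) : Cu × List Tr :=
  ([(2 ^ a + 2 ^ b + 2 ^ c, 3)], [[(a, b, 0), (a, c, 0), (b, c, 0)]])

/-- skip the position `x` -/
def pos (x i : ℕ) : ℕ := if i < x then i else i + 1

/-- masks: skip the position `x` -/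
def pm (x M : ℕ) : ℕ := M % 2 ^ x + M / 2 ^ x * 2 ^ (x + 1)

/-- kids with four attachments: all the positions except `x` -/
def kid4 (x : ℕ) (g : Cu × List Tr) : Cu × List Tr :=
  (g.1.map fun y => (pm x y.1, y.2), g.2.map fun tr => tr.map fun y =>
    (pos x y.1, pos x y.2.1, pm x y.2.2))

def kids3 (r t : ℕ) : List (Cu × List Tr) :=
  (List.range r).flatMap fun a => (List.range a).flatMap fun b => (List.range b).flatMap fun c =>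
    if t ≤ a then [kid3 c b a] else []

def kids4 (l : List ℕ) : List (Cu × List Tr) := l.flatMap fun x => LS.map (kid4 x)

/-- all choices of one trace list for each kid -/
def chs : List (Cu × List Tr) → List (List Tr)
  | [] => [[]]
  | g :: l => g.2.flatMap fun tr => (chs l).map fun y => tr :: y

/-- all lists of at most `n` further kids are violating or good -/
def chk (r t : ℕ) (good : List Cu → List Tr → Bool) (L : List (Cu × List Tr)) :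
    ℕ → List (Cu × List Tr) → Bool
  | 0, acc => viol r t (acc.map Prod.fst) || (chs acc).all (good (acc.map Prod.fst))
  | n + 1, acc => viol r t (acc.map Prod.fst) ||
      ((chs acc).all (good (acc.map Prod.fst)) && L.all fun g => chk r t good L n (g :: acc))

/-- violation of toughness at a separator with four vertices and two sides -/
def rviol (cs : List Cu) : Bool :=
  ((List.range 15).any fun R => 0 < tot R cs && 2 * pc R < tot R cs + 3) || 8 < tot 15 cs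

/-- a Hamiltonian cycle through a separator with four vertices and two sides -/
def rgood (ks : List Tr) : Bool :=
  (List.range 4).any fun x => (List.range 4).any fun y =>
    x != y && go 9 x y (15 - 2 ^ x - 2 ^ y) ks

/-- the check at a separator with four vertices -/
def rchk : Bool :=
  LS.all fun g => LS.all fun h => rviol [g.1, h.1] ||
    g.2.all fun tr => h.2.all fun us => rgood [tr, us]

/-- the traces of the states are well formed -/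
def wf : Bool :=
  LS.all fun g => (g.1.all fun x => decide (x.1 < 16)) && g.2.all fun tr => tr.all fun x =>
    decide (x.1 < 4) && decide (x.2.1 < 4) && x.1 != x.2.1 && decide (x.2.2 < 16) &&
      !x.2.2.testBit x.1 && !x.2.2.testBit x.2.1

end OPC
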