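import Mathlib

set_option autoImplicit false

/-!
MP_ec87e6_co: certificates for graphs that are not 1-planar.  Computable part.

Nodes of the planarisation are coded by natural numbers: the vertex `v` by `v` (`v < 100`), the
crossing of the edges number `e` and `f` by `100 * (e + 1) + f`.
-/

namespace OPC

/-- decision trees: `case e f` distinguishes whether the edges number `e`, `f` cross, a leaf is a
subdivision of `K₅` or `K₃,₃` (branch nodes, routes) -/
inductive Tree : Type
  | leaf : Bool → List ℕ → List (List ℕ) → Tree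
  | case : ℕ → ℕ → Tree → Tree → Tree

/-- the two ends of the edge number `e` -/
def ed (E : List (ℕ × ℕ)) (e : ℕ) : ℕ × ℕ := E.getD e (0, 0)

/-- is `v` an end of the edge number `e`? -/
def inc (E : List (ℕ × ℕ)) (v e : ℕ) : Bool := v == (ed E e).1 || v == (ed E e).2

/-- the edges number `e`, `f` are disjoint -/
def dsj (E : List (ℕ × ℕ)) (e f : ℕ) : Bool := !inc E (ed E e).1 f && !inc E (ed E e).2 f

/-- segments: a real edge `(e, 0, 0)`, or the leg `(e, v, c)` of the edge number `e` from the vertex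
`v` to the crossing `c` -/
abbrev Seg := ℕ × ℕ × ℕ

/-- the segment from a vertex to a node -/
def seg1 (E X : List (ℕ × ℕ)) (v b : ℕ) : Option Seg :=
  if b < 100 then
    (if (v, b) ∈ E then some (E.idxOf (v, b), 0, 0)
      else if (b, v) ∈ E then some (E.idxOf (b, v), 0, 0) else none)
  else if (b / 100 - 1, b % 100) ∈ X then
    (if inc E v (b / 100 - 1) then some (b / 100 - 1, v, b)
      else if inc E v (b % 100) then some (b % 100, v, b) else none)
  else none

/-- the segment between two nodes -/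
def seg (E X : List (ℕ × ℕ)) (a b : ℕ) : Option Seg :=
  if a < 100 then seg1 E X a b else if b < 100 then seg1 E X b a else none

/-- the segments of a route -/
def segs (E X : List (ℕ × ℕ)) : List ℕ → Option (List Seg)
  | [] => none
  | [_] => some []
  | a :: b :: l => match seg E X a b, segs E X (b :: l) with
    | some s, some t => some (s :: t)
    | _, _ => none

/-- the edges number `e`, `f` are known not to cross -/
def ncr (X N : List (ℕ × ℕ)) (e f : ℕ) : Bool :=
  (N.any fun x => (x.1 == e && x.2 == f) || (x.1 == f && x.2 == e)) ||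
  (X.any fun x => ((x.1 == e || x.2 == e) && !(x.1 == f || x.2 == f)) ||
    ((x.1 == f || x.2 == f) && !(x.1 == e || x.2 == e)))

/-- the segments are known to be disjoint -/
def okp (E X N : List (ℕ × ℕ)) (s t : Seg) : Bool :=
  if s.2.2 == 0 then
    (if t.2.2 == 0 then dsj E s.1 t.1 && ncr X N s.1 t.1
      else !inc E t.2.1 s.1 && !(s.1 == t.2.2 / 100 - 1 || s.1 == t.2.2 % 100))
  else if t.2.2 == 0 then !inc E s.2.1 t.1 && !(t.1 == s.2.2 / 100 - 1 || t.1 == s.2.2 % 100)
  else s.2.1 != t.2.1 && !(s.1 == t.2.2 / 100 - 1 || s.1 == t.2.2 % 100)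

def okr (E X N : List (ℕ × ℕ)) (r s : List Seg) : Bool :=
  r.all fun a => s.all fun b => okp E X N a b

/-- the routes of `K₅`: from `i` to `j` for `i < j` -/
def prs5 : List (ℕ × ℕ) :=
  [(0, 1), (0, 2), (0, 3), (0, 4), (1, 2), (1, 3), (1, 4), (2, 3), (2, 4), (3, 4)]

/-- the routes of `K₃,₃`: from `i` to `j` for `i < 3 ≤ j` -/
def prs33 : List (ℕ × ℕ) :=
  [(0, 3), (0, 4), (0, 5), (1, 3), (1, 4), (1, 5), (2, 3), (2, 4), (2, 5)]

/-- check the routes: ends, length -/
def ends (B : List ℕ) : List (ℕ × ℕ) → List (List ℕ) → Bool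
  | [], [] => true
  | p :: ps, r :: rs => decide (2 ≤ r.length) && r.head? == B[p.1]? && r.getLast? == B[p.2]? &&
      ends B ps rs
  | _, _ => false

def allSegs (E X : List (ℕ × ℕ)) : List (List ℕ) → Option (List (List Seg))
  | [] => some []
  | r :: rs => match segs E X r, allSegs E X rs with
    | some s, some t => some (s :: t)
    | _, _ => none

/-- disjoint routes are disjoint -/
def okall (E X N : List (ℕ × ℕ)) (ps : List ((ℕ × ℕ) × List Seg)) : Bool :=
  ps.all fun a => ps.all fun b =>
    a.1.1 == b.1.1 || a.1.1 == b.1.2 || a.1.2 == b.1.1 || a.1.2 == b.1.2 || b.1.1 < a.1.1 ||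
      okr E X N a.2 b.2

/-- check a leaf -/
def lchk (E : List (ℕ × ℕ)) (k5 : Bool) (B : List ℕ) (R : List (List ℕ)) (X N : List (ℕ × ℕ)) :
    Bool :=
  B.length == (if k5 then 5 else 6) && ends B (if k5 then prs5 else prs33) R &&
  match allSegs E X R with
  | none => false
  | some S => okall E X N ((if k5 then prs5 else prs33).zip S)

/-- check a tree -/
def tchk (E : List (ℕ × ℕ)) : Tree → List (ℕ × ℕ) → List (ℕ × ℕ) → Bool
  | .leaf k5 B R, X, N => lchk E k5 B R X N
  | .case e f s t, X, N => e < f && f < E.length && dsj E e f && tchk E s ((e, f) :: X) N &&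
      tchk E t X ((e, f) :: N)

/-- edges of `K₄ ∨ 3 K₁` -/
def E43 : List (ℕ × ℕ) := [(0, 1), (0, 2), (0, 3), (1, 2), (1, 3), (2, 3), (0, 4), (0, 5), (0, 6), (1, 4), (1, 5), (1, 6), (2, 4), (2, 5), (2, 6), (3, 4), (3, 5), (3, 6)]

def tree43 : Tree :=
  (.case 0 5
 (.case 10 14
  (.case 8 9
   (.leaf false [1, 6, 105, 3, 1114, 909] [[1, 3], [1, 1114], [1, 909], [6, 3], [6, 1114], [6, 909], [105, 3], [105, 2, 1114], [105, 0, 909]])
   (.case 8 12
    (.leaf false [0, 2, 1114, 5, 105, 912] [[0, 3, 5], [0, 105], [0, 912], [2, 5], [2, 105], [2, 912], [1114, 5], [1114, 1, 105], [1114, 6, 912]])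
    (.leaf false [0, 1, 2, 4, 105, 1114] [[0, 3, 4], [0, 105], [0, 6, 1114], [1, 4], [1, 105], [1, 1114], [2, 4], [2, 105], [2, 1114]])))
  (.case 10 17
   (.case 7 14
    (.leaf false [1, 3, 814, 4, 105, 1117] [[1, 4], [1, 105], [1, 1117], [3, 4], [3, 105], [3, 1117], [814, 0, 4], [814, 2, 105], [814, 6, 1117]])
    (.case 8 13
     (.leaf false [0, 105, 1117, 1, 3, 913] [[0, 4, 1], [0, 3], [0, 913], [105, 1], [105, 3], [105, 2, 913], [1117, 1], [1117, 3], [1117, 5, 913]])
     (.leaf false [0, 2, 1117, 5, 6, 105] [[0, 5], [0, 6], [0, 105], [2, 5], [2, 6], [2, 105], [1117, 5], [1117, 6], [1117, 3, 105]])))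
   (.case 11 13
    (.case 1 17
     (.leaf false [0, 2, 3, 1, 105, 217] [[0, 4, 1], [0, 105], [0, 217], [2, 1213, 1], [2, 105], [2, 217], [3, 1], [3, 105], [3, 217]])
     (.case 7 17
      (.leaf false [0, 1, 2, 4, 105, 1213] [[0, 4], [0, 105], [0, 817, 5, 1213], [1, 4], [1, 105], [1, 1213], [2, 4], [2, 105], [2, 1213]])
      (.leaf false [0, 105, 1213, 1, 2, 3] [[0, 5, 1], [0, 2], [0, 3], [105, 1], [105, 2], [105, 3], [1213, 1], [1213, 2], [1213, 6, 3]])))
    (.case 11 16
     (.case 8 9
      (.leaf false [0, 1, 1216, 5, 105, 909] [[0, 2, 5], [0, 105], [0, 909], [1, 5], [1, 105], [1, 909], [1216, 5], [1216, 3, 105], [1216, 6, 909]])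
      (.case 8 15
       (.case 9 14
        (.leaf false [1, 2, 6, 105, 1216, 1014] [[1, 105], [1, 1216], [1, 1014], [2, 105], [2, 5, 1216], [2, 1014], [6, 915, 0, 105], [6, 1216], [6, 1014]])
        (.leaf false [1, 3, 6, 105, 1216, 915] [[1, 105], [1, 1216], [1, 4, 915], [3, 105], [3, 1216], [3, 915], [6, 2, 105], [6, 1216], [6, 915]]))
       (.leaf false [0, 1, 3, 4, 105, 1216] [[0, 2, 4], [0, 105], [0, 6, 1216], [1, 4], [1, 105], [1, 1216], [3, 4], [3, 105], [3, 1216]])))
     (.case 13 17
      (.case 1 11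
       (.leaf false [0, 1, 2, 105, 1417, 211] [[0, 105], [0, 3, 1417], [0, 211], [1, 105], [1, 5, 1417], [1, 211], [2, 105], [2, 1417], [2, 211]])
       (.case 2 11
        (.leaf false [0, 1, 2, 4, 105, 311] [[0, 4], [0, 105], [0, 311], [1, 4], [1, 105], [1, 311], [2, 4], [2, 105], [2, 1417, 6, 311]])
        (.leaf false [0, 105, 1417, 1, 2, 3] [[0, 4, 1], [0, 2], [0, 3], [105, 1], [105, 2], [105, 3], [1417, 6, 1], [1417, 2], [1417, 3]])))
      (.case 14 16
       (.case 1 11
        (.leaf false [0, 1, 2, 3, 105, 211] [[0, 4, 3], [0, 105], [0, 211], [1, 3], [1, 105], [1, 211], [2, 1516, 3], [2, 105], [2, 211]])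
        (.case 2 11
         (.leaf false [0, 1, 3, 4, 105, 311] [[0, 4], [0, 105], [0, 311], [1, 4], [1, 105], [1, 311], [3, 1516, 2, 4], [3, 105], [3, 311]])
         (.leaf false [0, 105, 1516, 1, 2, 3] [[0, 4, 1], [0, 2], [0, 3], [105, 1], [105, 2], [105, 3], [1516, 6, 1], [1516, 2], [1516, 3]])))
       (.leaf false [1, 2, 3, 5, 6, 105] [[1, 5], [1, 6], [1, 105], [2, 5], [2, 6], [2, 105], [3, 5], [3, 6], [3, 105]])))))))
 (.case 0 12
  (.case 2 11
   (.case 1 15
    (.leaf false [0, 1, 3, 5, 112, 311] [[0, 5], [0, 112], [0, 311], [1, 5], [1, 112], [1, 311], [3, 5], [3, 215, 2, 112], [3, 311]])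
    (.case 3 15
     (.leaf false [0, 1, 3, 5, 311, 415] [[0, 5], [0, 311], [0, 112, 2, 415], [1, 5], [1, 311], [1, 415], [3, 5], [3, 311], [3, 415]])
     (.leaf false [0, 1, 3, 2, 112, 311] [[0, 2], [0, 112], [0, 311], [1, 2], [1, 112], [1, 311], [3, 2], [3, 4, 112], [3, 311]])))
   (.case 2 14
    (.case 4 7
     (.leaf false [0, 1, 314, 6, 112, 507] [[0, 6], [0, 112], [0, 507], [1, 6], [1, 112], [1, 507], [314, 6], [314, 2, 112], [314, 3, 507]])
     (.case 4 13
      (.case 7 15
       (.leaf false [0, 1, 2, 112, 314, 513] [[0, 112], [0, 314], [0, 815, 5, 513], [1, 112], [1, 6, 314], [1, 513], [2, 112], [2, 314], [2, 513]])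
       (.leaf false [0, 2, 3, 112, 314, 513] [[0, 112], [0, 314], [0, 5, 513], [2, 112], [2, 314], [2, 513], [3, 4, 112], [3, 314], [3, 513]]))
      (.leaf false [0, 1, 2, 5, 112, 314] [[0, 5], [0, 112], [0, 314], [1, 5], [1, 112], [1, 3, 314], [2, 5], [2, 112], [2, 314]])))
    (.case 4 8
     (.case 1 15
      (.leaf false [0, 2, 4, 112, 508, 215] [[0, 112], [0, 508], [0, 215], [2, 112], [2, 6, 508], [2, 215], [4, 112], [4, 1, 508], [4, 215]])
      (.case 3 15
       (.leaf false [1, 2, 3, 112, 508, 415] [[1, 112], [1, 508], [1, 415], [2, 112], [2, 6, 508], [2, 415], [3, 0, 112], [3, 508], [3, 415]])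
       (.leaf false [0, 1, 3, 2, 112, 508] [[0, 2], [0, 112], [0, 508], [1, 2], [1, 112], [1, 508], [3, 2], [3, 4, 112], [3, 508]])))
     (.case 4 14
      (.case 2 10
       (.leaf false [1, 3, 112, 4, 514, 310] [[1, 4], [1, 514], [1, 310], [3, 4], [3, 514], [3, 310], [112, 4], [112, 2, 514], [112, 0, 310]])
       (.case 2 13
        (.case 8 10
         (.leaf false [1, 2, 3, 112, 514, 313] [[1, 112], [1, 514], [1, 910, 5, 313], [2, 112], [2, 514], [2, 313], [3, 4, 112], [3, 514], [3, 313]])
         (.leaf false [0, 1, 2, 112, 514, 313] [[0, 112], [0, 6, 514], [0, 313], [1, 112], [1, 514], [1, 5, 313], [2, 112], [2, 514], [2, 313]]))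
        (.leaf false [0, 1, 2, 5, 112, 514] [[0, 5], [0, 112], [0, 3, 514], [1, 5], [1, 112], [1, 514], [2, 5], [2, 112], [2, 514]])))
      (.case 5 8
       (.case 11 13
        (.case 4 7
         (.leaf false [0, 3, 1213, 112, 608, 507] [[0, 112], [0, 608], [0, 507], [3, 4, 112], [3, 608], [3, 507], [1213, 1, 112], [1213, 6, 608], [1213, 5, 507]])
         (.leaf false [0, 1, 2, 112, 608, 1213] [[0, 112], [0, 608], [0, 5, 1213], [1, 112], [1, 3, 608], [1, 1213], [2, 112], [2, 608], [2, 1213]]))
        (.case 11 16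
         (.leaf false [0, 2, 1216, 5, 112, 608] [[0, 5], [0, 112], [0, 608], [2, 5], [2, 112], [2, 608], [1216, 5], [1216, 1, 112], [1216, 6, 608]])
         (.leaf false [0, 1, 2, 3, 112, 608] [[0, 3], [0, 112], [0, 608], [1, 3], [1, 112], [1, 6, 608], [2, 5, 3], [2, 112], [2, 608]])))
       (.case 5 11
        (.case 2 10
         (.leaf false [1, 3, 112, 4, 611, 310] [[1, 4], [1, 611], [1, 310], [3, 4], [3, 611], [3, 310], [112, 4], [112, 2, 611], [112, 0, 310]])
         (.case 2 13
          (.leaf false [0, 1, 2, 112, 611, 313] [[0, 112], [0, 6, 611], [0, 313], [1, 112], [1, 611], [1, 3, 313], [2, 112], [2, 611], [2, 313]])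
          (.leaf false [0, 1, 2, 5, 112, 611] [[0, 5], [0, 112], [0, 3, 611], [1, 5], [1, 112], [1, 611], [2, 5], [2, 112], [2, 611]])))
        (.leaf false [0, 1, 2, 3, 6, 112] [[0, 3], [0, 6], [0, 112], [1, 3], [1, 6], [1, 112], [2, 3], [2, 6], [2, 112]])))))))
  (.case 0 15
   (.case 1 11
    (.case 2 12
     (.leaf false [0, 1, 3, 5, 115, 312] [[0, 5], [0, 115], [0, 312], [1, 5], [1, 115], [1, 211, 2, 312], [3, 5], [3, 115], [3, 312]])
     (.case 4 12
      (.leaf false [1, 2, 115, 3, 211, 512] [[1, 5, 3], [1, 211], [1, 512], [2, 3], [2, 211], [2, 512], [115, 3], [115, 0, 211], [115, 4, 512]])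
      (.leaf false [0, 1, 2, 3, 115, 211] [[0, 3], [0, 115], [0, 211], [1, 3], [1, 115], [1, 211], [2, 3], [2, 4, 115], [2, 211]])))
    (.case 1 17
     (.case 3 7
      (.leaf false [0, 2, 115, 4, 217, 407] [[0, 4], [0, 217], [0, 407], [2, 4], [2, 217], [2, 407], [115, 4], [115, 3, 217], [115, 1, 407]])
      (.case 3 16
       (.case 7 12
        (.leaf false [1, 3, 812, 115, 217, 416] [[1, 115], [1, 6, 217], [1, 416], [3, 115], [3, 217], [3, 416], [812, 4, 115], [812, 2, 217], [812, 5, 416]])
        (.leaf false [0, 2, 3, 115, 217, 416] [[0, 115], [0, 217], [0, 5, 416], [2, 4, 115], [2, 217], [2, 416], [3, 115], [3, 217], [3, 416]]))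
       (.leaf false [0, 2, 3, 5, 115, 217] [[0, 5], [0, 115], [0, 217], [2, 5], [2, 1, 115], [2, 217], [3, 5], [3, 115], [3, 217]])))
     (.case 3 8
      (.case 10 17
       (.leaf false [0, 1, 6, 2, 115, 408] [[0, 2], [0, 115], [0, 408], [1, 4, 2], [1, 115], [1, 408], [6, 2], [6, 1117, 3, 115], [6, 408]])
       (.case 13 17
        (.leaf false [0, 1, 1417, 5, 115, 408] [[0, 5], [0, 115], [0, 408], [1, 5], [1, 115], [1, 408], [1417, 5], [1417, 3, 115], [1417, 2, 408]])
        (.leaf false [0, 1, 3, 2, 115, 408] [[0, 2], [0, 115], [0, 408], [1, 5, 2], [1, 115], [1, 408], [3, 2], [3, 115], [3, 6, 408]])))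
      (.case 3 17
       (.case 1 10
        (.leaf false [1, 2, 115, 4, 417, 210] [[1, 4], [1, 417], [1, 210], [2, 4], [2, 417], [2, 210], [115, 4], [115, 3, 417], [115, 0, 210]])
        (.case 1 16
         (.case 10 12
          (.leaf false [0, 3, 1112, 115, 417, 216] [[0, 115], [0, 6, 417], [0, 216], [3, 115], [3, 417], [3, 216], [1112, 4, 115], [1112, 2, 417], [1112, 5, 216]])
          (.leaf false [1, 2, 3, 115, 417, 216] [[1, 115], [1, 417], [1, 5, 216], [2, 4, 115], [2, 417], [2, 216], [3, 115], [3, 417], [3, 216]]))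
         (.leaf false [0, 1, 3, 5, 115, 417] [[0, 5], [0, 115], [0, 2, 417], [1, 5], [1, 115], [1, 417], [3, 5], [3, 115], [3, 417]])))
       (.case 5 8
        (.case 3 7
         (.leaf false [0, 2, 115, 4, 608, 407] [[0, 4], [0, 608], [0, 407], [2, 4], [2, 608], [2, 407], [115, 4], [115, 3, 608], [115, 1, 407]])
         (.case 3 16
          (.leaf false [0, 1, 3, 115, 608, 416] [[0, 115], [0, 608], [0, 2, 416], [1, 115], [1, 6, 608], [1, 416], [3, 115], [3, 608], [3, 416]])
          (.leaf false [0, 1, 3, 5, 115, 608] [[0, 5], [0, 115], [0, 608], [1, 5], [1, 115], [1, 2, 608], [3, 5], [3, 115], [3, 608]])))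
        (.case 5 11
         (.case 8 13
          (.leaf false [1, 3, 913, 5, 115, 611] [[1, 5], [1, 115], [1, 611], [3, 5], [3, 115], [3, 611], [913, 5], [913, 0, 115], [913, 2, 611]])
          (.case 8 16
           (.case 1 10
            (.leaf false [1, 2, 3, 115, 611, 210] [[1, 115], [1, 611], [1, 210], [2, 4, 115], [2, 611], [2, 210], [3, 115], [3, 611], [3, 916, 5, 210]])
            (.leaf false [0, 1, 3, 115, 611, 916] [[0, 115], [0, 2, 611], [0, 916], [1, 115], [1, 611], [1, 5, 916], [3, 115], [3, 611], [3, 916]]))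
           (.leaf false [0, 1, 3, 2, 115, 611] [[0, 2], [0, 115], [0, 6, 611], [1, 2], [1, 115], [1, 611], [3, 5, 2], [3, 115], [3, 611]])))
         (.leaf false [0, 1, 3, 2, 6, 115] [[0, 2], [0, 6], [0, 115], [1, 2], [1, 6], [1, 115], [3, 2], [3, 6], [3, 115]])))))))
   (.case 1 4
    (.case 2 3
     (.leaf false [1, 2, 3, 4, 204, 303] [[1, 4], [1, 204], [1, 303], [2, 4], [2, 204], [2, 303], [3, 4], [3, 204], [3, 303]])
     (.case 7 9
      (.case 8 12
       (.leaf false [0, 4, 204, 3, 809, 912] [[0, 3], [0, 809], [0, 912], [4, 3], [4, 809], [4, 912], [204, 3], [204, 1, 809], [204, 2, 912]])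
       (.case 11 12
        (.leaf false [1, 2, 809, 5, 204, 1212] [[1, 5], [1, 204], [1, 1212], [2, 5], [2, 204], [2, 1212], [809, 5], [809, 0, 204], [809, 4, 1212]])
        (.leaf false [0, 1, 2, 6, 204, 809] [[0, 6], [0, 204], [0, 809], [1, 6], [1, 204], [1, 809], [2, 6], [2, 204], [2, 4, 809]])))
      (.case 7 15
       (.case 11 12
        (.leaf false [0, 3, 1212, 6, 204, 815] [[0, 6], [0, 204], [0, 815], [3, 6], [3, 204], [3, 815], [1212, 6], [1212, 1, 204], [1212, 4, 815]])
        (.case 12 17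
         (.leaf false [2, 3, 815, 5, 204, 1317] [[2, 1, 5], [2, 204], [2, 1317], [3, 5], [3, 204], [3, 1317], [815, 5], [815, 0, 204], [815, 4, 1317]])
         (.leaf false [0, 2, 3, 1, 204, 815] [[0, 1], [0, 204], [0, 815], [2, 1], [2, 204], [2, 4, 815], [3, 6, 1], [3, 204], [3, 815]])))
       (.case 9 13
        (.case 6 16
         (.leaf false [0, 204, 1013, 1, 2, 716] [[0, 1], [0, 6, 2], [0, 716], [204, 1], [204, 2], [204, 3, 716], [1013, 1], [1013, 2], [1013, 5, 716]])
         (.leaf false [0, 3, 1013, 4, 5, 204] [[0, 4], [0, 5], [0, 204], [3, 4], [3, 5], [3, 204], [1013, 4], [1013, 5], [1013, 2, 204]]))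
        (.case 13 15
         (.case 6 10
          (.leaf false [0, 204, 1415, 2, 3, 710] [[0, 6, 2], [0, 3], [0, 710], [204, 2], [204, 3], [204, 1, 710], [1415, 2], [1415, 3], [1415, 4, 710]])
          (.leaf false [0, 1, 1415, 4, 5, 204] [[0, 4], [0, 5], [0, 204], [1, 4], [1, 5], [1, 204], [1415, 4], [1415, 5], [1415, 2, 204]]))
         (.leaf true [0, 1, 2, 3, 204] [[0, 1], [0, 5, 2], [0, 3], [0, 204], [1, 2], [1, 4, 3], [1, 204], [2, 3], [2, 204], [3, 204]]))))))
    (.case 1 9
     (.case 3 6
      (.leaf false [0, 1, 2, 3, 209, 406] [[0, 3], [0, 209], [0, 406], [1, 3], [1, 209], [1, 406], [2, 3], [2, 209], [2, 406]])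
      (.case 4 7
       (.case 5 8
        (.leaf true [0, 1, 2, 4, 209] [[0, 1], [0, 608, 2], [0, 4], [0, 209], [1, 2], [1, 507, 3, 4], [1, 209], [2, 4], [2, 209], [4, 209]])
        (.case 5 11
         (.leaf false [1, 2, 507, 5, 209, 611] [[1, 5], [1, 209], [1, 611], [2, 5], [2, 209], [2, 611], [507, 5], [507, 0, 209], [507, 3, 611]])
         (.leaf false [0, 1, 3, 6, 209, 507] [[0, 6], [0, 209], [0, 507], [1, 6], [1, 209], [1, 507], [3, 6], [3, 2, 209], [3, 507]])))
       (.case 4 13
        (.case 8 15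
         (.leaf false [1, 2, 915, 6, 209, 513] [[1, 6], [1, 209], [1, 513], [2, 6], [2, 209], [2, 513], [915, 6], [915, 4, 209], [915, 3, 513]])
         (.case 14 15
          (.case 2 11
           (.leaf false [0, 1, 2, 209, 513, 311] [[0, 209], [0, 5, 513], [0, 311], [1, 209], [1, 513], [1, 311], [2, 209], [2, 513], [2, 1515, 3, 311]])
           (.leaf false [1, 2, 3, 209, 513, 1515] [[1, 209], [1, 513], [1, 6, 1515], [2, 209], [2, 513], [2, 1515], [3, 0, 209], [3, 513], [3, 1515]]))
          (.leaf false [0, 209, 513, 1, 2, 3] [[0, 1], [0, 6, 2], [0, 3], [209, 1], [209, 2], [209, 4, 3], [513, 1], [513, 2], [513, 3]])))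
        (.case 7 15
         (.case 5 10
          (.leaf false [0, 209, 610, 1, 2, 815] [[0, 1], [0, 6, 2], [0, 815], [209, 1], [209, 2], [209, 4, 815], [610, 1], [610, 2], [610, 5, 815]])
          (.leaf false [1, 2, 815, 3, 5, 209] [[1, 3], [1, 5], [1, 209], [2, 3], [2, 5], [2, 209], [815, 3], [815, 5], [815, 4, 209]]))
         (.case 13 15
          (.case 2 10
           (.leaf false [0, 1, 1415, 2, 209, 310] [[0, 6, 2], [0, 209], [0, 310], [1, 2], [1, 209], [1, 310], [1415, 2], [1415, 4, 209], [1415, 3, 310]])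
           (.leaf false [0, 1, 1415, 3, 5, 209] [[0, 3], [0, 5], [0, 209], [1, 3], [1, 5], [1, 209], [1415, 3], [1415, 5], [1415, 4, 209]]))
          (.leaf true [0, 1, 2, 4, 209] [[0, 1], [0, 5, 2], [0, 4], [0, 209], [1, 2], [1, 3, 4], [1, 209], [2, 4], [2, 209], [4, 209]]))))))
     (.case 1 15
      (.case 0 14
       (.case 2 9
        (.leaf false [0, 2, 309, 5, 215, 114] [[0, 5], [0, 215], [0, 114], [2, 5], [2, 215], [2, 114], [309, 3, 5], [309, 4, 215], [309, 1, 114]])
        (.case 5 9
         (.leaf false [1, 2, 215, 5, 114, 609] [[1, 5], [1, 114], [1, 609], [2, 5], [2, 114], [2, 609], [215, 3, 5], [215, 0, 114], [215, 4, 609]])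
         (.leaf false [0, 1, 2, 3, 215, 114] [[0, 3], [0, 215], [0, 114], [1, 3], [1, 4, 215], [1, 114], [2, 3], [2, 215], [2, 114]])))
       (.case 0 17
        (.case 3 7
         (.leaf false [0, 1, 215, 4, 117, 407] [[0, 4], [0, 117], [0, 407], [1, 4], [1, 117], [1, 407], [215, 4], [215, 3, 117], [215, 2, 407]])
         (.case 3 16
          (.case 7 14
           (.leaf false [1, 2, 3, 215, 117, 416] [[1, 4, 215], [1, 117], [1, 416], [2, 215], [2, 814, 6, 117], [2, 416], [3, 215], [3, 117], [3, 416]])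
           (.leaf false [0, 2, 3, 215, 117, 416] [[0, 215], [0, 117], [0, 5, 416], [2, 215], [2, 6, 117], [2, 416], [3, 215], [3, 117], [3, 416]]))
          (.leaf false [0, 1, 3, 5, 215, 117] [[0, 5], [0, 215], [0, 117], [1, 5], [1, 2, 215], [1, 117], [3, 5], [3, 215], [3, 117]])))
        (.case 3 8
         (.case 10 17
          (.leaf false [0, 2, 1117, 5, 215, 408] [[0, 5], [0, 215], [0, 408], [2, 5], [2, 215], [2, 408], [1117, 5], [1117, 3, 215], [1117, 1, 408]])
          (.case 13 17
           (.leaf false [1, 215, 1417, 2, 3, 6] [[1, 4, 2], [1, 3], [1, 6], [215, 2], [215, 3], [215, 0, 408, 6], [1417, 2], [1417, 3], [1417, 6]])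
           (.leaf false [0, 2, 3, 1, 215, 408] [[0, 1], [0, 215], [0, 408], [2, 5, 1], [2, 215], [2, 408], [3, 1], [3, 215], [3, 6, 408]])))
         (.case 3 17
          (.case 0 13
           (.leaf false [0, 2, 417, 6, 215, 113] [[0, 6], [0, 215], [0, 113], [2, 6], [2, 215], [2, 113], [417, 6], [417, 3, 215], [417, 1, 113]])
           (.case 0 16
            (.case 8 9
             (.leaf false [0, 2, 3, 215, 417, 116] [[0, 215], [0, 909, 6, 417], [0, 116], [2, 215], [2, 417], [2, 5, 116], [3, 215], [3, 417], [3, 116]])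
             (.leaf false [0, 1, 3, 215, 417, 116] [[0, 215], [0, 6, 417], [0, 116], [1, 4, 215], [1, 417], [1, 116], [3, 215], [3, 417], [3, 116]]))
            (.leaf false [1, 2, 3, 5, 215, 417] [[1, 5], [1, 0, 215], [1, 417], [2, 5], [2, 215], [2, 417], [3, 5], [3, 215], [3, 417]])))
          (.case 4 8
           (.case 10 14
            (.leaf false [0, 3, 1114, 5, 215, 508] [[0, 5], [0, 215], [0, 508], [3, 5], [3, 215], [3, 508], [1114, 5], [1114, 2, 215], [1114, 1, 508]])
            (.case 14 16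
             (.case 3 7
              (.leaf false [0, 1, 3, 215, 508, 407] [[0, 215], [0, 508], [0, 407], [1, 4, 215], [1, 508], [1, 407], [3, 215], [3, 508], [3, 1516, 5, 407]])
              (.leaf false [0, 2, 3, 215, 508, 1516] [[0, 215], [0, 508], [0, 5, 1516], [2, 215], [2, 1, 508], [2, 1516], [3, 215], [3, 508], [3, 1516]]))
             (.leaf false [0, 2, 3, 1, 215, 508] [[0, 1], [0, 215], [0, 508], [2, 1], [2, 215], [2, 6, 508], [3, 5, 1], [3, 215], [3, 508]])))
           (.case 4 14
            (.case 8 10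
             (.leaf false [2, 3, 910, 5, 215, 514] [[2, 5], [2, 215], [2, 514], [3, 5], [3, 215], [3, 514], [910, 5], [910, 0, 215], [910, 1, 514]])
             (.case 8 16
              (.case 0 13
               (.leaf false [1, 2, 916, 215, 514, 113] [[1, 4, 215], [1, 514], [1, 113], [2, 215], [2, 514], [2, 113], [916, 0, 215], [916, 6, 514], [916, 5, 113]])
               (.leaf false [0, 2, 3, 215, 514, 916] [[0, 215], [0, 1, 514], [0, 916], [2, 215], [2, 514], [2, 5, 916], [3, 215], [3, 514], [3, 916]]))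
              (.leaf false [0, 3, 514, 1, 6, 215] [[0, 1], [0, 6], [0, 215], [3, 5, 1], [3, 6], [3, 215], [514, 1], [514, 6], [514, 2, 215]])))
            (.leaf false [0, 2, 3, 1, 6, 215] [[0, 1], [0, 6], [0, 215], [2, 1], [2, 6], [2, 215], [3, 1], [3, 6], [3, 215]])))))))
      (.case 2 3
       (.case 7 9
        (.case 8 12
         (.case 13 15
          (.leaf false [2, 3, 4, 303, 912, 1415] [[2, 303], [2, 912], [2, 1415], [3, 303], [3, 6, 912], [3, 1415], [4, 809, 1, 303], [4, 912], [4, 1415]])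
          (.leaf false [0, 2, 4, 303, 809, 912] [[0, 303], [0, 809], [0, 912], [2, 303], [2, 5, 809], [2, 912], [4, 3, 303], [4, 809], [4, 912]]))
         (.case 12 17
          (.leaf false [2, 3, 809, 5, 303, 1317] [[2, 5], [2, 303], [2, 1317], [3, 5], [3, 303], [3, 1317], [809, 5], [809, 1, 303], [809, 4, 1317]])
          (.leaf false [0, 4, 303, 2, 3, 809] [[0, 2], [0, 6, 3], [0, 809], [4, 2], [4, 3], [4, 809], [303, 2], [303, 3], [303, 1, 809]])))
        (.case 7 12
         (.case 11 15
          (.leaf false [1, 3, 812, 5, 303, 1215] [[1, 5], [1, 303], [1, 1215], [3, 2, 5], [3, 303], [3, 1215], [812, 5], [812, 0, 303], [812, 4, 1215]])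
          (.case 14 15
           (.leaf false [2, 3, 812, 5, 303, 1515] [[2, 5], [2, 303], [2, 1515], [3, 1, 5], [3, 303], [3, 1515], [812, 5], [812, 0, 303], [812, 4, 1515]])
           (.leaf false [0, 2, 3, 1, 303, 812] [[0, 1], [0, 303], [0, 812], [2, 6, 1], [2, 303], [2, 812], [3, 1], [3, 303], [3, 4, 812]])))
         (.case 9 16
          (.case 6 13
           (.leaf false [0, 2, 1016, 1, 303, 713] [[0, 1], [0, 303], [0, 713], [2, 6, 1], [2, 303], [2, 713], [1016, 1], [1016, 3, 303], [1016, 5, 713]])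
           (.leaf false [0, 2, 1016, 4, 5, 303] [[0, 4], [0, 5], [0, 303], [2, 4], [2, 5], [2, 303], [1016, 4], [1016, 5], [1016, 3, 303]]))
          (.case 12 16
           (.case 6 10
            (.leaf false [0, 1, 1316, 2, 303, 710] [[0, 2], [0, 303], [0, 710], [1, 6, 2], [1, 303], [1, 710], [1316, 2], [1316, 3, 303], [1316, 4, 710]])
            (.leaf false [0, 1, 1316, 4, 5, 303] [[0, 4], [0, 5], [0, 303], [1, 4], [1, 5], [1, 303], [1316, 4], [1316, 5], [1316, 3, 303]]))
           (.leaf false [0, 4, 303, 1, 2, 3] [[0, 1], [0, 2], [0, 5, 3], [4, 1], [4, 2], [4, 3], [303, 1], [303, 2], [303, 3]])))))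
       (.case 2 9
        (.case 3 7
         (.case 5 8
          (.leaf false [0, 2, 3, 4, 309, 608] [[0, 4], [0, 309], [0, 608], [2, 4], [2, 407, 1, 309], [2, 608], [3, 4], [3, 309], [3, 608]])
          (.case 5 11
           (.leaf false [1, 3, 407, 5, 309, 611] [[1, 5], [1, 309], [1, 611], [3, 5], [3, 309], [3, 611], [407, 5], [407, 0, 309], [407, 2, 611]])
           (.leaf false [0, 1, 3, 6, 309, 407] [[0, 6], [0, 309], [0, 407], [1, 6], [1, 309], [1, 407], [3, 6], [3, 309], [3, 2, 407]])))
         (.case 3 16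
          (.case 8 12
           (.leaf false [1, 3, 912, 6, 309, 416] [[1, 6], [1, 309], [1, 416], [3, 6], [3, 309], [3, 416], [912, 6], [912, 0, 309], [912, 2, 416]])
           (.case 12 17
            (.case 1 11
             (.leaf false [0, 1, 3, 309, 416, 211] [[0, 309], [0, 5, 416], [0, 211], [1, 309], [1, 416], [1, 211], [3, 309], [3, 416], [3, 1317, 6, 211]])
             (.leaf false [1, 2, 3, 309, 416, 1317] [[1, 309], [1, 416], [1, 6, 1317], [2, 0, 309], [2, 416], [2, 1317], [3, 309], [3, 416], [3, 1317]]))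
            (.leaf false [0, 309, 416, 1, 2, 3] [[0, 1], [0, 2], [0, 6, 3], [309, 1], [309, 4, 2], [309, 3], [416, 1], [416, 2], [416, 3]])))
          (.case 4 12
           (.leaf false [0, 309, 512, 1, 3, 4] [[0, 1], [0, 2, 3], [0, 4], [309, 1], [309, 3], [309, 4], [512, 1], [512, 3], [512, 4]])
           (.case 7 12
            (.case 5 10
             (.leaf false [1, 2, 3, 6, 309, 610] [[1, 6], [1, 309], [1, 610], [2, 6], [2, 812, 0, 309], [2, 610], [3, 6], [3, 309], [3, 610]])
             (.leaf false [1, 3, 812, 2, 5, 309] [[1, 2], [1, 5], [1, 309], [3, 2], [3, 5], [3, 309], [812, 2], [812, 5], [812, 4, 309]]))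
            (.case 12 16
             (.case 1 10
              (.leaf false [0, 1, 1316, 2, 309, 210] [[0, 6, 2], [0, 309], [0, 210], [1, 2], [1, 309], [1, 210], [1316, 2], [1316, 4, 309], [1316, 5, 210]])
              (.leaf false [0, 1, 1316, 2, 5, 309] [[0, 2], [0, 5], [0, 309], [1, 2], [1, 5], [1, 309], [1316, 2], [1316, 5], [1316, 3, 309]]))
             (.leaf true [0, 1, 2, 3, 309] [[0, 1], [0, 2], [0, 5, 3], [0, 309], [1, 2], [1, 3], [1, 309], [2, 3], [2, 4, 309], [3, 309]]))))))
        (.case 2 12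
         (.case 3 8
          (.case 4 7
           (.leaf false [0, 1, 3, 4, 312, 507] [[0, 4], [0, 312], [0, 507], [1, 4], [1, 408, 2, 312], [1, 507], [3, 4], [3, 312], [3, 507]])
           (.case 4 13
            (.leaf false [2, 3, 408, 6, 312, 513] [[2, 6], [2, 312], [2, 513], [3, 6], [3, 312], [3, 513], [408, 6], [408, 0, 312], [408, 1, 513]])
            (.leaf false [0, 2, 3, 5, 312, 408] [[0, 5], [0, 312], [0, 408], [2, 5], [2, 312], [2, 408], [3, 5], [3, 312], [3, 1, 408]])))
          (.case 3 17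
           (.case 7 9
            (.leaf false [2, 3, 809, 5, 312, 417] [[2, 5], [2, 312], [2, 417], [3, 5], [3, 312], [3, 417], [809, 5], [809, 4, 312], [809, 1, 417]])
            (.case 9 16
             (.case 0 13
              (.leaf false [0, 1, 2, 312, 417, 113] [[0, 312], [0, 6, 417], [0, 113], [1, 1016, 3, 312], [1, 417], [1, 113], [2, 312], [2, 417], [2, 113]])
              (.leaf false [1, 2, 3, 312, 417, 1016] [[1, 0, 312], [1, 417], [1, 1016], [2, 312], [2, 417], [2, 5, 1016], [3, 312], [3, 417], [3, 1016]]))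
             (.leaf false [0, 312, 417, 1, 2, 3] [[0, 1], [0, 2], [0, 5, 3], [312, 4, 1], [312, 2], [312, 3], [417, 1], [417, 2], [417, 3]])))
           (.case 5 9
            (.leaf false [0, 312, 609, 2, 3, 4] [[0, 2], [0, 1, 3], [0, 4], [312, 2], [312, 3], [312, 4], [609, 2], [609, 3], [609, 4]])
            (.case 8 9
             (.case 4 14
              (.leaf false [1, 312, 514, 2, 3, 909] [[1, 2], [1, 5, 3], [1, 909], [312, 2], [312, 3], [312, 4, 909], [514, 2], [514, 3], [514, 6, 909]])
              (.leaf false [1, 6, 312, 2, 3, 909] [[1, 2], [1, 3], [1, 909], [6, 2], [6, 3], [6, 909], [312, 2], [312, 3], [312, 4, 909]]))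
             (.case 9 17
              (.case 0 14
               (.leaf false [0, 2, 1017, 1, 312, 114] [[0, 5, 3, 1], [0, 312], [0, 114], [2, 1], [2, 312], [2, 114], [1017, 1], [1017, 4, 312], [1017, 6, 114]])
               (.leaf false [0, 2, 1017, 1, 6, 312] [[0, 1], [0, 6], [0, 312], [2, 1], [2, 6], [2, 312], [1017, 1], [1017, 6], [1017, 3, 312]]))
              (.leaf true [0, 1, 2, 3, 312] [[0, 1], [0, 2], [0, 6, 3], [0, 312], [1, 2], [1, 3], [1, 4, 312], [2, 3], [2, 312], [3, 312]]))))))
         (.case 3 6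
          (.case 2 10
           (.case 11 15
            (.case 5 8
             (.leaf false [0, 1, 2, 406, 310, 608] [[0, 406], [0, 310], [0, 608], [1, 406], [1, 310], [1, 1215, 3, 608], [2, 406], [2, 5, 310], [2, 608]])
             (.leaf false [0, 1, 3, 406, 310, 1215] [[0, 406], [0, 310], [0, 6, 1215], [1, 406], [1, 310], [1, 1215], [3, 2, 406], [3, 310], [3, 1215]]))
            (.case 14 15
             (.leaf false [0, 1, 1515, 6, 406, 310] [[0, 6], [0, 406], [0, 310], [1, 6], [1, 406], [1, 310], [1515, 6], [1515, 2, 406], [1515, 3, 310]])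
             (.leaf false [0, 1, 3, 2, 406, 310] [[0, 2], [0, 406], [0, 310], [1, 6, 2], [1, 406], [1, 310], [3, 2], [3, 4, 406], [3, 310]])))
           (.case 2 13
            (.case 11 15
             (.leaf false [0, 2, 1215, 6, 406, 313] [[0, 6], [0, 406], [0, 313], [2, 6], [2, 406], [2, 313], [1215, 6], [1215, 4, 406], [1215, 3, 313]])
             (.case 14 15
              (.case 4 8
               (.leaf false [0, 1, 3, 406, 313, 508] [[0, 406], [0, 313], [0, 508], [1, 406], [1, 5, 313], [1, 508], [3, 1515, 2, 406], [3, 313], [3, 508]])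
               (.leaf false [0, 2, 3, 406, 313, 1515] [[0, 406], [0, 313], [0, 6, 1515], [2, 406], [2, 313], [2, 1515], [3, 1, 406], [3, 313], [3, 1515]]))
              (.leaf false [0, 2, 3, 1, 406, 313] [[0, 1], [0, 406], [0, 313], [2, 6, 1], [2, 406], [2, 313], [3, 1], [3, 4, 406], [3, 313]])))
            (.case 10 15
             (.case 5 7
              (.leaf false [0, 2, 1115, 1, 406, 607] [[0, 1], [0, 406], [0, 607], [2, 6, 1], [2, 406], [2, 607], [1115, 1], [1115, 4, 406], [1115, 3, 607]])
              (.leaf false [0, 2, 1115, 3, 5, 406] [[0, 3], [0, 5], [0, 406], [2, 3], [2, 5], [2, 406], [1115, 3], [1115, 5], [1115, 4, 406]]))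
             (.case 13 15
              (.case 4 7
               (.leaf false [0, 1, 1415, 3, 406, 507] [[0, 3], [0, 406], [0, 507], [1, 6, 3], [1, 406], [1, 507], [1415, 3], [1415, 4, 406], [1415, 5, 507]])
               (.leaf false [0, 1, 1415, 3, 5, 406] [[0, 3], [0, 5], [0, 406], [1, 3], [1, 5], [1, 406], [1415, 3], [1415, 5], [1415, 4, 406]]))
              (.leaf true [0, 1, 2, 3, 406] [[0, 1], [0, 2], [0, 3], [0, 406], [1, 5, 2], [1, 3], [1, 406], [2, 3], [2, 406], [3, 4, 406]])))))
          (.case 3 15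
           (.case 2 11
            (.case 6 10
             (.case 1 16
              (.leaf false [1, 2, 3, 415, 311, 216] [[1, 415], [1, 311], [1, 710, 5, 216], [2, 415], [2, 6, 311], [2, 216], [3, 415], [3, 311], [3, 216]])
              (.leaf false [0, 1, 3, 415, 311, 710] [[0, 2, 415], [0, 311], [0, 710], [1, 415], [1, 311], [1, 710], [3, 415], [3, 311], [3, 5, 710]]))
             (.case 6 13
              (.leaf false [1, 3, 713, 5, 415, 311] [[1, 5], [1, 415], [1, 311], [3, 5], [3, 415], [3, 311], [713, 5], [713, 4, 415], [713, 0, 311]])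
              (.leaf false [0, 1, 415, 2, 4, 311] [[0, 2], [0, 4], [0, 311], [1, 5, 2], [1, 4], [1, 311], [415, 2], [415, 4], [415, 3, 311]])))
            (.case 2 14
             (.case 0 13
              (.leaf false [0, 2, 415, 4, 314, 113] [[0, 4], [0, 314], [0, 113], [2, 4], [2, 314], [2, 113], [415, 4], [415, 3, 314], [415, 1, 113]])
              (.case 0 16
               (.leaf false [0, 1, 3, 6, 314, 116] [[0, 6], [0, 314], [0, 116], [1, 6], [1, 415, 2, 314], [1, 116], [3, 6], [3, 314], [3, 116]])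
               (.leaf false [1, 2, 3, 5, 415, 314] [[1, 5], [1, 415], [1, 0, 314], [2, 5], [2, 415], [2, 314], [3, 5], [3, 415], [3, 314]])))
             (.case 6 11
              (.case 1 17
               (.leaf false [0, 415, 217, 2, 3, 711] [[0, 5, 2], [0, 3], [0, 711], [415, 2], [415, 3], [415, 4, 711], [217, 2], [217, 3], [217, 6, 711]])
               (.leaf false [0, 6, 415, 2, 3, 711] [[0, 2], [0, 3], [0, 711], [6, 2], [6, 3], [6, 711], [415, 2], [415, 3], [415, 4, 711]]))
              (.case 6 14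
               (.case 0 17
                (.leaf false [0, 415, 117, 1, 3, 714] [[0, 5, 1], [0, 3], [0, 714], [415, 1], [415, 3], [415, 2, 714], [117, 1], [117, 3], [117, 6, 714]])
                (.leaf false [0, 6, 415, 1, 3, 714] [[0, 1], [0, 3], [0, 714], [6, 1], [6, 3], [6, 714], [415, 1], [415, 3], [415, 2, 714]]))
               (.leaf true [0, 1, 2, 4, 415] [[0, 1], [0, 2], [0, 4], [0, 3, 415], [1, 6, 2], [1, 4], [1, 415], [2, 4], [2, 415], [4, 415]])))))
           (.case 4 6
            (.case 1 10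
             (.case 5 8
              (.leaf false [0, 2, 3, 5, 506, 608] [[0, 5], [0, 506], [0, 608], [2, 5], [2, 210, 1, 506], [2, 608], [3, 5], [3, 506], [3, 608]])
              (.case 5 11
               (.leaf false [0, 1, 2, 506, 210, 611] [[0, 506], [0, 210], [0, 3, 611], [1, 506], [1, 210], [1, 611], [2, 4, 506], [2, 210], [2, 611]])
               (.leaf false [0, 1, 2, 6, 506, 210] [[0, 6], [0, 506], [0, 210], [1, 6], [1, 506], [1, 210], [2, 6], [2, 3, 506], [2, 210]])))
             (.case 1 16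
              (.case 11 12
               (.leaf false [0, 3, 1212, 6, 506, 216] [[0, 6], [0, 506], [0, 216], [3, 6], [3, 506], [3, 216], [1212, 6], [1212, 1, 506], [1212, 2, 216]])
               (.case 12 17
                (.case 3 8
                 (.leaf false [0, 1, 3, 506, 216, 408] [[0, 506], [0, 216], [0, 408], [1, 506], [1, 5, 216], [1, 408], [3, 506], [3, 216], [3, 1317, 6, 408]])
                 (.leaf false [0, 2, 3, 506, 216, 1317] [[0, 506], [0, 216], [0, 6, 1317], [2, 1, 506], [2, 216], [2, 1317], [3, 506], [3, 216], [3, 1317]]))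
                (.leaf false [0, 2, 3, 1, 506, 216] [[0, 1], [0, 506], [0, 216], [2, 1], [2, 4, 506], [2, 216], [3, 6, 1], [3, 506], [3, 216]])))
              (.case 10 12
               (.case 5 7
                (.leaf false [0, 3, 1112, 2, 506, 607] [[0, 2], [0, 506], [0, 607], [3, 6, 2], [3, 506], [3, 607], [1112, 2], [1112, 4, 506], [1112, 5, 607]])
                (.leaf false [0, 3, 1112, 2, 5, 506] [[0, 2], [0, 5], [0, 506], [3, 2], [3, 5], [3, 506], [1112, 2], [1112, 5], [1112, 1, 506]]))
               (.case 12 16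
                (.case 3 7
                 (.leaf false [0, 1, 1316, 2, 506, 407] [[0, 2], [0, 506], [0, 407], [1, 6, 2], [1, 506], [1, 407], [1316, 2], [1316, 3, 506], [1316, 5, 407]])
                 (.leaf false [0, 1, 1316, 2, 5, 506] [[0, 2], [0, 5], [0, 506], [1, 2], [1, 5], [1, 506], [1316, 2], [1316, 5], [1316, 4, 506]]))
                (.leaf false [0, 1, 4, 2, 3, 506] [[0, 2], [0, 3], [0, 506], [1, 2], [1, 5, 3], [1, 506], [4, 2], [4, 3], [4, 506]])))))
            (.case 4 12
             (.case 1 10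
              (.case 2 11
               (.leaf false [0, 1, 512, 4, 210, 311] [[0, 4], [0, 210], [0, 311], [1, 4], [1, 210], [1, 311], [512, 4], [512, 2, 210], [512, 3, 311]])
               (.case 2 14
                (.leaf false [2, 3, 210, 5, 512, 314] [[2, 5], [2, 512], [2, 314], [3, 5], [3, 512], [3, 314], [210, 5], [210, 1, 512], [210, 0, 314]])
                (.leaf false [1, 2, 3, 6, 512, 210] [[1, 6], [1, 512], [1, 210], [2, 6], [2, 512], [2, 210], [3, 6], [3, 512], [3, 0, 210]])))
              (.case 1 16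
               (.case 6 11
                (.leaf false [2, 3, 711, 6, 512, 216] [[2, 6], [2, 512], [2, 216], [3, 6], [3, 512], [3, 216], [711, 6], [711, 4, 512], [711, 0, 216]])
                (.case 6 17
                 (.case 0 14
                  (.leaf false [0, 1, 2, 512, 216, 114] [[0, 717, 4, 512], [0, 216], [0, 114], [1, 512], [1, 5, 216], [1, 114], [2, 512], [2, 216], [2, 114]])
                  (.leaf false [0, 2, 3, 512, 216, 717] [[0, 1, 512], [0, 216], [0, 717], [2, 512], [2, 216], [2, 6, 717], [3, 512], [3, 216], [3, 717]]))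
                 (.leaf false [0, 2, 3, 1, 512, 216] [[0, 1], [0, 4, 512], [0, 216], [2, 1], [2, 512], [2, 216], [3, 6, 1], [3, 512], [3, 216]])))
               (.case 6 10
                (.case 2 13
                 (.leaf false [1, 512, 313, 2, 3, 710] [[1, 2], [1, 6, 3], [1, 710], [512, 2], [512, 3], [512, 4, 710], [313, 2], [313, 3], [313, 5, 710]])
                 (.leaf false [0, 5, 512, 2, 3, 710] [[0, 2], [0, 3], [0, 710], [5, 2], [5, 3], [5, 710], [512, 2], [512, 3], [512, 1, 710]]))
                (.case 6 16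
                 (.case 0 13
                  (.leaf false [1, 2, 716, 3, 512, 113] [[1, 6, 3], [1, 512], [1, 113], [2, 0, 3], [2, 512], [2, 113], [716, 3], [716, 4, 512], [716, 5, 113]])
                  (.leaf false [0, 5, 512, 1, 2, 716] [[0, 1], [0, 2], [0, 716], [5, 1], [5, 2], [5, 716], [512, 1], [512, 2], [512, 3, 716]]))
                 (.leaf false [0, 1, 512, 2, 3, 4] [[0, 2], [0, 3], [0, 4], [1, 2], [1, 5, 3], [1, 4], [512, 2], [512, 3], [512, 4]])))))
             (.case 5 6
              (.case 0 13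
               (.case 9 14
                (.case 4 8
                 (.leaf false [0, 1, 3, 606, 113, 508] [[0, 606], [0, 113], [0, 508], [1, 1014, 4, 606], [1, 113], [1, 508], [3, 606], [3, 5, 113], [3, 508]])
                 (.leaf false [0, 1, 2, 606, 113, 1014] [[0, 606], [0, 113], [0, 6, 1014], [1, 3, 606], [1, 113], [1, 1014], [2, 606], [2, 113], [2, 1014]]))
                (.case 9 17
                 (.leaf false [0, 2, 1017, 6, 606, 113] [[0, 6], [0, 606], [0, 113], [2, 6], [2, 606], [2, 113], [1017, 6], [1017, 4, 606], [1017, 1, 113]])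
                 (.leaf false [0, 1, 2, 3, 606, 113] [[0, 3], [0, 606], [0, 113], [1, 3], [1, 4, 606], [1, 113], [2, 6, 3], [2, 606], [2, 113]])))
               (.case 0 16
                (.case 9 14
                 (.leaf false [0, 3, 1014, 6, 606, 116] [[0, 6], [0, 606], [0, 116], [3, 6], [3, 606], [3, 116], [1014, 6], [1014, 4, 606], [1014, 1, 116]])
                 (.case 9 17
                  (.case 3 8
                   (.leaf false [0, 1, 2, 606, 116, 408] [[0, 606], [0, 116], [0, 408], [1, 1017, 3, 606], [1, 116], [1, 408], [2, 606], [2, 5, 116], [2, 408]])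
                   (.leaf false [0, 1, 3, 606, 116, 1017] [[0, 606], [0, 116], [0, 6, 1017], [1, 2, 606], [1, 116], [1, 1017], [3, 606], [3, 116], [3, 1017]]))
                  (.leaf false [0, 1, 3, 2, 606, 116] [[0, 2], [0, 606], [0, 116], [1, 2], [1, 4, 606], [1, 116], [3, 6, 2], [3, 606], [3, 116]])))
                (.case 9 13
                 (.case 4 7
                  (.leaf false [0, 3, 1013, 1, 606, 507] [[0, 1], [0, 606], [0, 507], [3, 6, 1], [3, 606], [3, 507], [1013, 1], [1013, 2, 606], [1013, 5, 507]])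
                  (.leaf false [0, 3, 1013, 1, 5, 606] [[0, 1], [0, 5], [0, 606], [3, 1], [3, 5], [3, 606], [1013, 1], [1013, 5], [1013, 4, 606]]))
                 (.case 9 16
                  (.case 3 7
                   (.leaf false [0, 2, 1016, 1, 606, 407] [[0, 1], [0, 606], [0, 407], [2, 6, 1], [2, 606], [2, 407], [1016, 1], [1016, 4, 606], [1016, 5, 407]])
                   (.leaf false [0, 2, 1016, 1, 5, 606] [[0, 1], [0, 5], [0, 606], [2, 1], [2, 5], [2, 606], [1016, 1], [1016, 5], [1016, 4, 606]]))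
                  (.leaf false [0, 3, 4, 1, 2, 606] [[0, 1], [0, 2], [0, 606], [3, 1], [3, 5, 2], [3, 606], [4, 1], [4, 2], [4, 606]])))))
              (.case 5 9
               (.case 0 14
                (.case 6 13
                 (.case 2 10
                  (.leaf false [1, 2, 3, 609, 114, 310] [[1, 609], [1, 114], [1, 310], [2, 609], [2, 114], [2, 713, 5, 310], [3, 609], [3, 6, 114], [3, 310]])
                  (.leaf false [0, 1, 2, 609, 114, 713] [[0, 3, 609], [0, 114], [0, 713], [1, 609], [1, 114], [1, 5, 713], [2, 609], [2, 114], [2, 713]]))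
                 (.case 6 16
                  (.leaf false [1, 2, 716, 5, 609, 114] [[1, 5], [1, 609], [1, 114], [2, 5], [2, 609], [2, 114], [716, 5], [716, 3, 609], [716, 0, 114]])
                  (.leaf false [0, 1, 2, 3, 609, 114] [[0, 3], [0, 4, 609], [0, 114], [1, 3], [1, 609], [1, 114], [2, 5, 3], [2, 609], [2, 114]])))
                (.case 0 17
                 (.case 6 13
                  (.leaf false [1, 3, 713, 5, 609, 117] [[1, 5], [1, 609], [1, 117], [3, 5], [3, 609], [3, 117], [713, 5], [713, 2, 609], [713, 0, 117]])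
                  (.case 6 16
                   (.case 1 10
                    (.leaf false [0, 1, 2, 609, 117, 210] [[0, 716, 4, 609], [0, 117], [0, 210], [1, 609], [1, 117], [1, 210], [2, 609], [2, 6, 117], [2, 210]])
                    (.leaf false [0, 1, 3, 609, 117, 716] [[0, 2, 609], [0, 117], [0, 716], [1, 609], [1, 117], [1, 5, 716], [3, 609], [3, 117], [3, 716]]))
                   (.leaf false [0, 1, 3, 2, 609, 117] [[0, 2], [0, 4, 609], [0, 117], [1, 2], [1, 609], [1, 117], [3, 5, 2], [3, 609], [3, 117]])))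
                 (.case 6 14
                  (.case 2 11
                   (.leaf false [0, 609, 311, 1, 3, 714] [[0, 1], [0, 2, 5, 3], [0, 714], [609, 1], [609, 3], [609, 4, 714], [311, 1], [311, 3], [311, 6, 714]])
                   (.leaf false [0, 6, 609, 1, 3, 714] [[0, 1], [0, 3], [0, 714], [6, 1], [6, 3], [6, 714], [609, 1], [609, 3], [609, 2, 714]]))
                  (.case 6 17
                   (.case 1 11
                    (.leaf false [0, 609, 211, 1, 2, 717] [[0, 1], [0, 5, 2], [0, 717], [609, 1], [609, 2], [609, 3, 717], [211, 1], [211, 2], [211, 6, 717]])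
                    (.leaf false [0, 6, 609, 1, 2, 717] [[0, 1], [0, 2], [0, 717], [6, 1], [6, 2], [6, 717], [609, 1], [609, 2], [609, 3, 717]]))
                   (.leaf false [0, 2, 609, 1, 3, 4] [[0, 1], [0, 3], [0, 4], [2, 1], [2, 6, 3], [2, 4], [609, 1], [609, 3], [609, 4]])))))
               (.leaf true [0, 1, 2, 3, 4] [[0, 1], [0, 2], [0, 3], [0, 4], [1, 2], [1, 3], [1, 4], [2, 3], [2, 4], [3, 4]]))))))))))))))))

/-- edges of `K₅` with three vertices of degree four -/
def EW : List (ℕ × ℕ) := [(0, 1), (0, 2), (0, 3), (0, 4), (1, 2), (1, 3), (1, 4), (2, 3), (2, 4), (3, 4), (1, 5), (2, 5), (3, 5), (4, 5), (0, 6), (2, 6), (3, 6), (4, 6), (0, 7), (1, 7), (3, 7), (4, 7)]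

def treeW : Tree :=
  (.case 0 7
 (.case 3 19
  (.case 2 8
   (.leaf false [0, 2, 3, 4, 107, 308] [[0, 419, 4], [0, 107], [0, 308], [2, 5, 4], [2, 107], [2, 308], [3, 4], [3, 107], [3, 308]])
   (.case 5 8
    (.leaf false [1, 2, 3, 4, 107, 608] [[1, 419, 4], [1, 107], [1, 608], [2, 6, 4], [2, 107], [2, 608], [3, 4], [3, 107], [3, 608]])
    (.leaf false [0, 1, 4, 3, 107, 419] [[0, 3], [0, 107], [0, 419], [1, 3], [1, 107], [1, 419], [4, 3], [4, 2, 107], [4, 419]])))
  (.case 3 20
   (.case 8 14
    (.leaf false [0, 4, 107, 7, 420, 914] [[0, 7], [0, 420], [0, 914], [4, 7], [4, 420], [4, 914], [107, 1, 7], [107, 3, 420], [107, 2, 914]])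
    (.case 8 16
     (.leaf false [1, 420, 916, 3, 4, 107] [[1, 3], [1, 4], [1, 107], [420, 3], [420, 4], [420, 0, 107], [916, 3], [916, 4], [916, 2, 107]])
     (.leaf false [0, 2, 3, 6, 107, 420] [[0, 6], [0, 107], [0, 420], [2, 6], [2, 107], [2, 4, 420], [3, 6], [3, 107], [3, 420]])))
   (.case 6 18
    (.case 2 8
     (.leaf true [0, 3, 107, 718, 308] [[0, 6, 3], [0, 107], [0, 718], [0, 308], [3, 107], [3, 7, 718], [3, 308], [107, 1, 718], [107, 2, 308], [718, 4, 308]])
     (.case 5 8
      (.leaf false [0, 1, 3, 107, 718, 608] [[0, 107], [0, 718], [0, 4, 608], [1, 107], [1, 718], [1, 608], [3, 107], [3, 7, 718], [3, 608]])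
      (.leaf false [0, 1, 4, 3, 107, 718] [[0, 3], [0, 107], [0, 718], [1, 3], [1, 107], [1, 718], [4, 3], [4, 2, 107], [4, 718]])))
    (.case 6 20
     (.case 3 10
      (.leaf false [1, 4, 107, 2, 720, 410] [[1, 2], [1, 720], [1, 410], [4, 2], [4, 720], [4, 410], [107, 2], [107, 3, 720], [107, 0, 410]])
      (.case 3 12
       (.leaf false [2, 720, 412, 3, 4, 107] [[2, 6, 3], [2, 4], [2, 107], [720, 3], [720, 4], [720, 1, 107], [412, 3], [412, 4], [412, 0, 107]])
       (.leaf false [1, 3, 4, 5, 107, 720] [[1, 5], [1, 107], [1, 720], [3, 5], [3, 107], [3, 720], [4, 5], [4, 0, 107], [4, 720]])))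
     (.case 9 18
      (.case 12 19
       (.leaf false [1, 3, 1018, 4, 107, 1319] [[1, 4], [1, 107], [1, 1319], [3, 6, 4], [3, 107], [3, 1319], [1018, 4], [1018, 0, 107], [1018, 7, 1319]])
       (.case 13 19
        (.leaf false [0, 3, 1419, 4, 107, 1018] [[0, 4], [0, 107], [0, 1018], [3, 6, 2, 4], [3, 107], [3, 1018], [1419, 4], [1419, 1, 107], [1419, 7, 1018]])
        (.leaf false [0, 1, 3, 4, 107, 1018] [[0, 4], [0, 107], [0, 1018], [1, 4], [1, 107], [1, 7, 1018], [3, 5, 4], [3, 107], [3, 1018]])))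
      (.case 9 19
       (.case 16 18
        (.leaf false [0, 3, 1019, 4, 107, 1718] [[0, 4], [0, 107], [0, 1718], [3, 5, 4], [3, 107], [3, 1718], [1019, 4], [1019, 1, 107], [1019, 7, 1718]])
        (.case 17 18
         (.leaf false [1, 3, 1818, 4, 107, 1019] [[1, 4], [1, 107], [1, 1019], [3, 5, 4], [3, 107], [3, 1019], [1818, 4], [1818, 0, 107], [1818, 7, 1019]])
         (.leaf false [0, 1, 3, 4, 107, 1019] [[0, 4], [0, 107], [0, 7, 1019], [1, 4], [1, 107], [1, 1019], [3, 6, 4], [3, 107], [3, 1019]])))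
       (.leaf false [0, 1, 3, 4, 7, 107] [[0, 4], [0, 7], [0, 107], [1, 4], [1, 7], [1, 107], [3, 4], [3, 7], [3, 107]])))))))
 (.case 0 8
  (.case 5 11
   (.case 1 9
    (.leaf false [0, 2, 4, 108, 611, 209] [[0, 108], [0, 3, 611], [0, 209], [2, 108], [2, 611], [2, 209], [4, 108], [4, 1, 611], [4, 209]])
    (.case 9 18
     (.leaf false [0, 3, 4, 6, 108, 1018] [[0, 6], [0, 108], [0, 1018], [3, 6], [3, 611, 2, 108], [3, 1018], [4, 6], [4, 108], [4, 1018]])
     (.case 9 19
      (.leaf false [1, 4, 611, 5, 108, 1019] [[1, 5], [1, 108], [1, 1019], [4, 5], [4, 108], [4, 1019], [611, 5], [611, 2, 108], [611, 3, 1019]])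
      (.leaf false [0, 108, 611, 1, 2, 3] [[0, 7, 1], [0, 2], [0, 3], [108, 1], [108, 2], [108, 4, 3], [611, 1], [611, 2], [611, 3]]))))
   (.case 5 13
    (.case 7 19
     (.leaf false [1, 2, 3, 5, 613, 819] [[1, 5], [1, 613], [1, 819], [2, 5], [2, 108, 4, 613], [2, 819], [3, 5], [3, 613], [3, 819]])
     (.case 7 21
      (.leaf false [0, 613, 821, 3, 4, 108] [[0, 3], [0, 4], [0, 108], [613, 3], [613, 4], [613, 1, 108], [821, 3], [821, 4], [821, 2, 108]])
      (.leaf false [1, 3, 4, 7, 108, 613] [[1, 7], [1, 108], [1, 613], [3, 7], [3, 2, 108], [3, 613], [4, 7], [4, 108], [4, 613]])))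
    (.case 7 10
     (.case 1 13
      (.leaf false [0, 2, 4, 3, 108, 213] [[0, 3], [0, 108], [0, 213], [2, 810, 3], [2, 108], [2, 213], [4, 3], [4, 108], [4, 213]])
      (.case 2 13
       (.leaf false [0, 4, 810, 3, 108, 313] [[0, 7, 3], [0, 108], [0, 313], [4, 3], [4, 108], [4, 313], [810, 3], [810, 2, 108], [810, 5, 313]])
       (.leaf false [1, 2, 4, 3, 108, 810] [[1, 3], [1, 108], [1, 810], [2, 0, 3], [2, 108], [2, 810], [4, 3], [4, 108], [4, 5, 810]])))
     (.case 7 13
      (.case 2 6
       (.leaf false [0, 1, 4, 3, 108, 306] [[0, 6, 3], [0, 108], [0, 306], [1, 3], [1, 108], [1, 306], [4, 813, 3], [4, 108], [4, 306]])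
       (.case 3 5
        (.leaf false [0, 1, 4, 108, 813, 405] [[0, 108], [0, 3, 813], [0, 405], [1, 108], [1, 2, 813], [1, 405], [4, 108], [4, 813], [4, 405]])
        (.leaf false [0, 1, 813, 3, 4, 108] [[0, 3], [0, 4], [0, 108], [1, 3], [1, 4], [1, 108], [813, 3], [813, 4], [813, 2, 108]])))
      (.case 9 10
       (.case 7 19
        (.case 2 21
         (.leaf false [1, 2, 4, 108, 1010, 819] [[1, 108], [1, 1010], [1, 819], [2, 108], [2, 5, 1010], [2, 819], [4, 108], [4, 1010], [4, 321, 7, 819]])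
         (.leaf false [1, 3, 4, 108, 1010, 819] [[1, 108], [1, 1010], [1, 819], [3, 0, 108], [3, 1010], [3, 819], [4, 108], [4, 1010], [4, 7, 819]]))
        (.case 7 21
         (.leaf false [0, 1010, 821, 3, 4, 108] [[0, 3], [0, 4], [0, 108], [1010, 3], [1010, 4], [1010, 1, 108], [821, 3], [821, 4], [821, 2, 108]])
         (.leaf false [1, 3, 4, 7, 108, 1010] [[1, 7], [1, 108], [1, 1010], [3, 7], [3, 2, 108], [3, 1010], [4, 7], [4, 108], [4, 1010]])))
       (.case 9 11
        (.case 2 6
         (.leaf false [0, 1, 4, 3, 108, 306] [[0, 7, 3], [0, 108], [0, 306], [1, 3], [1, 108], [1, 306], [4, 1011, 3], [4, 108], [4, 306]])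
         (.case 3 5
          (.leaf false [1, 2, 4, 108, 1011, 405] [[1, 108], [1, 5, 1011], [1, 405], [2, 108], [2, 1011], [2, 3, 405], [4, 108], [4, 1011], [4, 405]])
          (.leaf false [0, 1, 1011, 3, 4, 108] [[0, 3], [0, 4], [0, 108], [1, 3], [1, 4], [1, 108], [1011, 3], [1011, 4], [1011, 2, 108]])))
        (.leaf false [1, 2, 4, 3, 5, 108] [[1, 3], [1, 5], [1, 108], [2, 3], [2, 5], [2, 108], [4, 3], [4, 5], [4, 108]])))))))
  (.case 0 9
   (.case 4 12
    (.case 13 19
     (.case 8 20
      (.leaf false [1, 2, 3, 109, 512, 920] [[1, 109], [1, 512], [1, 1419, 4, 920], [2, 0, 109], [2, 512], [2, 920], [3, 109], [3, 512], [3, 920]])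
      (.leaf false [1, 3, 4, 109, 512, 1419] [[1, 109], [1, 512], [1, 1419], [3, 109], [3, 512], [3, 7, 1419], [4, 109], [4, 2, 512], [4, 1419]]))
     (.case 13 20
      (.leaf false [0, 109, 1420, 3, 4, 512] [[0, 6, 3], [0, 4], [0, 2, 512], [109, 3], [109, 4], [109, 1, 512], [1420, 3], [1420, 4], [1420, 5, 512]])
      (.leaf false [1, 3, 4, 7, 109, 512] [[1, 7], [1, 109], [1, 512], [3, 7], [3, 109], [3, 512], [4, 7], [4, 109], [4, 5, 512]])))
    (.case 4 13
     (.case 7 19
      (.case 8 12
       (.leaf false [1, 2, 4, 109, 513, 912] [[1, 109], [1, 513], [1, 819, 3, 912], [2, 0, 109], [2, 513], [2, 912], [4, 109], [4, 513], [4, 912]])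
       (.leaf false [1, 2, 3, 109, 513, 819] [[1, 109], [1, 513], [1, 819], [2, 4, 109], [2, 513], [2, 819], [3, 109], [3, 5, 513], [3, 819]]))
      (.case 7 21
       (.leaf false [0, 513, 821, 2, 4, 109] [[0, 2], [0, 4], [0, 109], [513, 2], [513, 4], [513, 1, 109], [821, 2], [821, 4], [821, 3, 109]])
       (.leaf false [1, 3, 4, 7, 109, 513] [[1, 7], [1, 109], [1, 513], [3, 7], [3, 109], [3, 2, 513], [4, 7], [4, 109], [4, 513]])))
     (.case 7 10
      (.case 1 13
       (.leaf false [0, 4, 810, 3, 109, 213] [[0, 3], [0, 109], [0, 213], [4, 7, 3], [4, 109], [4, 213], [810, 3], [810, 1, 109], [810, 2, 213]])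
       (.case 2 13
        (.leaf false [0, 4, 810, 2, 109, 313] [[0, 2], [0, 109], [0, 313], [4, 2], [4, 109], [4, 313], [810, 2], [810, 1, 109], [810, 5, 313]])
        (.leaf false [0, 109, 810, 1, 3, 4] [[0, 2, 1], [0, 3], [0, 4], [109, 1], [109, 3], [109, 4], [810, 1], [810, 3], [810, 5, 4]])))
      (.case 7 13
       (.case 1 5
        (.leaf false [0, 109, 813, 3, 4, 205] [[0, 3], [0, 7, 4], [0, 205], [109, 3], [109, 4], [109, 1, 205], [813, 3], [813, 4], [813, 2, 205]])
        (.case 2 4
         (.leaf false [1, 109, 813, 3, 4, 304] [[1, 3], [1, 4], [1, 304], [109, 3], [109, 4], [109, 0, 304], [813, 3], [813, 4], [813, 2, 304]])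
         (.leaf false [0, 1, 813, 2, 3, 109] [[0, 2], [0, 3], [0, 109], [1, 2], [1, 3], [1, 109], [813, 2], [813, 3], [813, 4, 109]])))
       (.case 8 10
        (.case 1 12
         (.leaf false [0, 3, 910, 4, 109, 212] [[0, 4], [0, 109], [0, 212], [3, 6, 4], [3, 109], [3, 212], [910, 4], [910, 1, 109], [910, 5, 212]])
         (.case 3 12
          (.leaf false [0, 3, 4, 2, 109, 412] [[0, 2], [0, 109], [0, 412], [3, 2], [3, 109], [3, 412], [4, 910, 2], [4, 109], [4, 412]])
          (.leaf false [1, 4, 5, 2, 109, 910] [[1, 2], [1, 109], [1, 910], [4, 0, 2], [4, 109], [4, 910], [5, 2], [5, 3, 109], [5, 910]])))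
        (.case 8 12
         (.case 2 4
          (.leaf false [0, 1, 912, 4, 109, 304] [[0, 4], [0, 109], [0, 304], [1, 4], [1, 109], [1, 304], [912, 4], [912, 3, 109], [912, 2, 304]])
          (.case 3 4
           (.leaf false [0, 1, 4, 3, 109, 404] [[0, 3], [0, 109], [0, 404], [1, 3], [1, 109], [1, 404], [4, 912, 3], [4, 109], [4, 404]])
           (.leaf false [0, 109, 912, 2, 3, 4] [[0, 2], [0, 3], [0, 4], [109, 1, 2], [109, 3], [109, 4], [912, 2], [912, 3], [912, 4]])))
         (.leaf false [1, 3, 4, 2, 5, 109] [[1, 2], [1, 5], [1, 109], [3, 2], [3, 5], [3, 109], [4, 2], [4, 5], [4, 109]])))))))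
   (.case 1 5
    (.case 2 4
     (.leaf false [0, 2, 3, 4, 205, 304] [[0, 4], [0, 205], [0, 304], [2, 4], [2, 205], [2, 304], [3, 4], [3, 205], [3, 304]])
     (.case 3 19
      (.case 2 8
       (.leaf false [0, 2, 3, 4, 205, 308] [[0, 419, 4], [0, 205], [0, 308], [2, 5, 4], [2, 205], [2, 308], [3, 4], [3, 205], [3, 308]])
       (.case 8 10
        (.case 12 15
         (.case 9 14
          (.leaf false [1, 2, 1014, 3, 205, 910] [[1, 419, 7, 3], [1, 205], [1, 910], [2, 1315, 3], [2, 205], [2, 910], [1014, 3], [1014, 0, 205], [1014, 4, 910]])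
          (.leaf false [0, 2, 3, 205, 910, 1315] [[0, 205], [0, 419, 1, 910], [0, 6, 1315], [2, 205], [2, 910], [2, 1315], [3, 205], [3, 4, 910], [3, 1315]]))
         (.case 12 17
          (.leaf false [0, 1, 1317, 6, 205, 419] [[0, 6], [0, 205], [0, 419], [1, 910, 2, 6], [1, 205], [1, 419], [1317, 6], [1317, 3, 205], [1317, 4, 419]])
          (.leaf false [2, 3, 419, 4, 205, 910] [[2, 6, 4], [2, 205], [2, 910], [3, 4], [3, 205], [3, 5, 910], [419, 4], [419, 0, 205], [419, 1, 910]])))
        (.case 8 12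
         (.leaf false [2, 3, 4, 6, 205, 912] [[2, 6], [2, 205], [2, 912], [3, 6], [3, 205], [3, 912], [4, 6], [4, 419, 0, 205], [4, 912]])
         (.leaf false [0, 1, 4, 3, 205, 419] [[0, 3], [0, 205], [0, 419], [1, 5, 3], [1, 205], [1, 419], [4, 3], [4, 2, 205], [4, 419]]))))
      (.case 3 20
       (.case 8 10
        (.leaf false [0, 3, 4, 6, 205, 420] [[0, 6], [0, 205], [0, 420], [3, 6], [3, 205], [3, 420], [4, 6], [4, 910, 1, 205], [4, 420]])
        (.case 8 12
         (.leaf false [0, 3, 4, 6, 420, 912] [[0, 6], [0, 420], [0, 205, 2, 912], [3, 6], [3, 420], [3, 912], [4, 6], [4, 420], [4, 912]])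
         (.leaf false [0, 3, 4, 1, 205, 420] [[0, 1], [0, 205], [0, 420], [3, 5, 1], [3, 205], [3, 420], [4, 1], [4, 2, 205], [4, 420]])))
       (.case 8 19
        (.case 9 18
         (.leaf false [0, 3, 919, 4, 205, 1018] [[0, 4], [0, 205], [0, 1018], [3, 5, 4], [3, 205], [3, 1018], [919, 4], [919, 1, 205], [919, 7, 1018]])
         (.leaf false [0, 3, 919, 4, 7, 205] [[0, 4], [0, 7], [0, 205], [3, 4], [3, 7], [3, 205], [919, 4], [919, 7], [919, 1, 205]]))
        (.case 8 20
         (.case 6 18
          (.leaf false [2, 3, 718, 4, 205, 920] [[2, 5, 4], [2, 205], [2, 920], [3, 4], [3, 205], [3, 920], [718, 4], [718, 0, 205], [718, 7, 920]])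
          (.leaf false [0, 1, 920, 4, 7, 205] [[0, 4], [0, 7], [0, 205], [1, 4], [1, 7], [1, 205], [920, 4], [920, 7], [920, 3, 205]]))
         (.leaf true [0, 1, 2, 3, 205] [[0, 1], [0, 4, 2], [0, 3], [0, 205], [1, 2], [1, 7, 3], [1, 205], [2, 3], [2, 205], [3, 205]]))))))
    (.case 1 6
     (.case 2 4
      (.leaf false [0, 1, 2, 4, 206, 304] [[0, 4], [0, 206], [0, 304], [1, 3, 4], [1, 206], [1, 304], [2, 4], [2, 206], [2, 304]])
      (.case 2 19
       (.case 5 21
        (.leaf false [1, 3, 206, 2, 319, 621] [[1, 5, 2], [1, 319], [1, 621], [3, 2], [3, 319], [3, 621], [206, 2], [206, 0, 319], [206, 4, 621]])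
        (.case 14 21
         (.case 9 15
          (.leaf false [3, 206, 1521, 4, 319, 1015] [[3, 5, 4], [3, 319], [3, 1015], [206, 4], [206, 0, 319], [206, 2, 1015], [1521, 4], [1521, 7, 319], [1521, 6, 1015]])
          (.leaf false [2, 4, 319, 3, 206, 1521] [[2, 3], [2, 206], [2, 6, 1521], [4, 3], [4, 206], [4, 1521], [319, 3], [319, 0, 206], [319, 7, 1521]]))
         (.case 16 21
          (.case 9 15
           (.leaf false [3, 206, 1721, 4, 319, 1015] [[3, 5, 4], [3, 319], [3, 1015], [206, 4], [206, 0, 319], [206, 2, 1015], [1721, 4], [1721, 7, 319], [1721, 6, 1015]])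
           (.leaf false [2, 4, 319, 3, 206, 1721] [[2, 5, 3], [2, 206], [2, 6, 1721], [4, 3], [4, 206], [4, 1721], [319, 3], [319, 0, 206], [319, 7, 1721]]))
          (.leaf false [0, 1, 4, 3, 206, 319] [[0, 6, 3], [0, 206], [0, 319], [1, 3], [1, 206], [1, 319], [4, 3], [4, 206], [4, 7, 319]]))))
       (.case 2 21
        (.case 7 14
         (.leaf false [0, 3, 206, 1, 321, 814] [[0, 1], [0, 321], [0, 814], [3, 5, 1], [3, 321], [3, 814], [206, 1], [206, 4, 321], [206, 2, 814]])
         (.case 7 17
          (.leaf false [1, 321, 817, 3, 4, 206] [[1, 3], [1, 5, 4], [1, 206], [321, 3], [321, 4], [321, 0, 206], [817, 3], [817, 4], [817, 2, 206]])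
          (.leaf false [0, 3, 4, 6, 206, 321] [[0, 6], [0, 206], [0, 321], [3, 6], [3, 2, 206], [3, 321], [4, 6], [4, 206], [4, 321]])))
        (.case 4 9
         (.leaf false [0, 206, 509, 1, 2, 4] [[0, 1], [0, 3, 2], [0, 4], [206, 1], [206, 2], [206, 4], [509, 1], [509, 2], [509, 4]])
         (.case 7 19
          (.case 9 18
           (.leaf false [0, 4, 819, 3, 206, 1018] [[0, 3], [0, 206], [0, 1018], [4, 6, 3], [4, 206], [4, 1018], [819, 3], [819, 2, 206], [819, 7, 1018]])
           (.leaf false [0, 4, 819, 3, 7, 206] [[0, 3], [0, 7], [0, 206], [4, 3], [4, 7], [4, 206], [819, 3], [819, 7], [819, 1, 206]]))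
          (.case 7 21
           (.case 5 18
            (.leaf false [2, 4, 618, 3, 206, 821] [[2, 6, 3], [2, 206], [2, 821], [4, 3], [4, 206], [4, 821], [618, 3], [618, 0, 206], [618, 7, 821]])
            (.leaf false [0, 1, 821, 3, 7, 206] [[0, 3], [0, 7], [0, 206], [1, 3], [1, 7], [1, 206], [821, 3], [821, 7], [821, 2, 206]]))
           (.leaf false [0, 2, 4, 1, 3, 206] [[0, 1], [0, 3], [0, 206], [2, 1], [2, 3], [2, 206], [4, 7, 1], [4, 3], [4, 206]])))))))
     (.case 1 9
      (.case 0 15
       (.case 2 6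
        (.leaf false [0, 3, 4, 2, 209, 306] [[0, 115, 2], [0, 209], [0, 306], [3, 2], [3, 209], [3, 306], [4, 2], [4, 209], [4, 306]])
        (.case 3 5
         (.leaf false [0, 3, 4, 209, 115, 405] [[0, 209], [0, 115], [0, 405], [3, 209], [3, 2, 115], [3, 405], [4, 209], [4, 1, 115], [4, 405]])
         (.leaf false [0, 1, 209, 3, 4, 115] [[0, 3], [0, 4], [0, 115], [1, 3], [1, 4], [1, 115], [209, 3], [209, 4], [209, 2, 115]])))
       (.case 0 17
        (.case 5 18
         (.leaf false [0, 1, 209, 2, 117, 618] [[0, 6, 2], [0, 117], [0, 618], [1, 5, 2], [1, 117], [1, 618], [209, 2], [209, 4, 117], [209, 3, 618]])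
         (.case 5 21
          (.leaf false [1, 4, 209, 2, 117, 621] [[1, 2], [1, 117], [1, 621], [4, 2], [4, 117], [4, 621], [209, 2], [209, 0, 117], [209, 3, 621]])
          (.leaf false [0, 1, 4, 7, 209, 117] [[0, 7], [0, 209], [0, 117], [1, 7], [1, 3, 209], [1, 117], [4, 7], [4, 209], [4, 117]])))
        (.case 4 14
         (.case 5 8
          (.leaf false [1, 2, 4, 209, 514, 608] [[1, 0, 209], [1, 514], [1, 608], [2, 209], [2, 514], [2, 608], [4, 209], [4, 6, 514], [4, 608]])
          (.case 6 7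
           (.leaf false [0, 2, 707, 4, 209, 514] [[0, 4], [0, 209], [0, 514], [2, 4], [2, 209], [2, 514], [707, 4], [707, 3, 209], [707, 1, 514]])
           (.leaf false [1, 2, 209, 3, 4, 514] [[1, 3], [1, 4], [1, 514], [2, 3], [2, 4], [2, 514], [209, 3], [209, 4], [209, 0, 514]])))
         (.case 4 17
          (.case 0 12
           (.leaf false [0, 3, 517, 4, 209, 112] [[0, 4], [0, 209], [0, 112], [3, 7, 4], [3, 209], [3, 112], [517, 4], [517, 2, 209], [517, 1, 112]])
           (.case 0 13
            (.leaf false [1, 4, 209, 3, 517, 113] [[1, 3], [1, 517], [1, 113], [4, 7, 3], [4, 517], [4, 113], [209, 3], [209, 2, 517], [209, 0, 113]])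
            (.leaf false [1, 2, 4, 3, 209, 517] [[1, 3], [1, 0, 209], [1, 517], [2, 3], [2, 209], [2, 517], [4, 5, 3], [4, 209], [4, 517]])))
          (.case 6 14
           (.case 4 18
            (.leaf false [0, 1, 209, 3, 714, 518] [[0, 3], [0, 714], [0, 518], [1, 3], [1, 714], [1, 518], [209, 3], [209, 4, 714], [209, 2, 518]])
            (.case 4 21
             (.leaf false [1, 4, 209, 3, 714, 521] [[1, 3], [1, 714], [1, 521], [4, 5, 3], [4, 714], [4, 521], [209, 3], [209, 0, 714], [209, 2, 521]])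
             (.leaf false [0, 1, 4, 7, 209, 714] [[0, 7], [0, 209], [0, 714], [1, 7], [1, 2, 209], [1, 714], [4, 7], [4, 209], [4, 714]])))
           (.case 6 15
            (.case 0 16
             (.leaf false [0, 3, 715, 4, 209, 116] [[0, 4], [0, 209], [0, 116], [3, 5, 4], [3, 209], [3, 116], [715, 4], [715, 2, 209], [715, 6, 116]])
             (.leaf false [1, 2, 4, 3, 209, 715] [[1, 3], [1, 0, 209], [1, 715], [2, 3], [2, 209], [2, 715], [4, 6, 3], [4, 209], [4, 715]]))
            (.leaf false [0, 2, 4, 1, 6, 209] [[0, 1], [0, 6], [0, 209], [2, 1], [2, 6], [2, 209], [4, 1], [4, 6], [4, 209]])))))))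
      (.case 2 4
       (.case 6 18
        (.case 9 10
         (.leaf false [1, 3, 718, 7, 304, 1010] [[1, 7], [1, 304], [1, 1010], [3, 7], [3, 304], [3, 1010], [718, 7], [718, 0, 304], [718, 4, 1010]])
         (.case 9 11
          (.leaf false [2, 3, 4, 6, 304, 1011] [[2, 6], [2, 304], [2, 1011], [3, 6], [3, 304], [3, 1011], [4, 6], [4, 718, 0, 304], [4, 1011]])
          (.leaf false [0, 1, 3, 2, 304, 718] [[0, 2], [0, 304], [0, 718], [1, 5, 2], [1, 304], [1, 718], [3, 2], [3, 304], [3, 4, 718]])))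
        (.case 6 20
         (.case 8 14
          (.leaf false [1, 3, 4, 5, 304, 720] [[1, 5], [1, 304], [1, 720], [3, 5], [3, 304], [3, 720], [4, 5], [4, 914, 2, 304], [4, 720]])
          (.case 8 16
           (.leaf false [1, 3, 4, 5, 304, 720] [[1, 5], [1, 304], [1, 720], [3, 5], [3, 304], [3, 720], [4, 5], [4, 916, 2, 304], [4, 720]])
           (.leaf false [0, 304, 720, 1, 2, 3] [[0, 1], [0, 2], [0, 6, 3], [304, 1], [304, 2], [304, 3], [720, 1], [720, 4, 2], [720, 3]])))
         (.case 8 18
          (.case 9 19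
           (.leaf false [1, 3, 918, 4, 304, 1019] [[1, 4], [1, 304], [1, 1019], [3, 6, 4], [3, 304], [3, 1019], [918, 4], [918, 0, 304], [918, 7, 1019]])
           (.leaf false [1, 3, 918, 4, 7, 304] [[1, 4], [1, 7], [1, 304], [3, 4], [3, 7], [3, 304], [918, 4], [918, 7], [918, 2, 304]]))
          (.case 8 20
           (.case 6 14
            (.leaf false [2, 3, 4, 5, 304, 920] [[2, 5], [2, 304], [2, 920], [3, 5], [3, 304], [3, 920], [4, 5], [4, 714, 1, 304], [4, 920]])
            (.case 6 16
             (.leaf false [1, 3, 4, 5, 920, 716] [[1, 5], [1, 304, 2, 920], [1, 716], [3, 5], [3, 920], [3, 716], [4, 5], [4, 920], [4, 716]])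
             (.leaf false [0, 304, 920, 1, 2, 3] [[0, 1], [0, 2], [0, 6, 3], [304, 1], [304, 2], [304, 3], [920, 4, 1], [920, 2], [920, 3]])))
           (.leaf false [0, 4, 304, 1, 2, 3] [[0, 1], [0, 2], [0, 7, 3], [4, 1], [4, 2], [4, 3], [304, 1], [304, 2], [304, 3]])))))
       (.case 2 6
        (.case 1 10
         (.case 7 13
          (.leaf false [3, 4, 210, 7, 306, 813] [[3, 7], [3, 306], [3, 813], [4, 7], [4, 306], [4, 813], [210, 1, 7], [210, 0, 306], [210, 2, 813]])
          (.case 8 12
           (.leaf false [0, 1, 912, 3, 306, 210] [[0, 6, 3], [0, 306], [0, 210], [1, 3], [1, 306], [1, 210], [912, 3], [912, 4, 306], [912, 2, 210]])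
           (.leaf false [2, 5, 306, 3, 4, 210] [[2, 3], [2, 4], [2, 210], [5, 3], [5, 4], [5, 210], [306, 3], [306, 4], [306, 0, 210]])))
         (.case 1 13
          (.case 7 19
           (.leaf false [0, 4, 819, 3, 306, 213] [[0, 6, 3], [0, 306], [0, 213], [4, 3], [4, 306], [4, 213], [819, 3], [819, 1, 306], [819, 2, 213]])
           (.case 7 21
            (.leaf false [2, 3, 4, 6, 213, 821] [[2, 6], [2, 213], [2, 821], [3, 6], [3, 306, 0, 213], [3, 821], [4, 6], [4, 213], [4, 821]])
            (.leaf false [0, 3, 4, 1, 306, 213] [[0, 1], [0, 306], [0, 213], [3, 1], [3, 306], [3, 2, 213], [4, 7, 1], [4, 306], [4, 213]])))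
          (.case 5 8
           (.leaf true [2, 3, 4, 306, 608] [[2, 3], [2, 5, 4], [2, 0, 306], [2, 608], [3, 4], [3, 306], [3, 608], [4, 306], [4, 608], [306, 1, 608]])
           (.case 7 10
            (.case 8 14
             (.leaf false [0, 4, 810, 3, 306, 914] [[0, 7, 3], [0, 306], [0, 914], [4, 3], [4, 306], [4, 914], [810, 3], [810, 1, 306], [810, 2, 914]])
             (.case 8 16
              (.leaf false [2, 3, 4, 306, 810, 916] [[2, 0, 306], [2, 810], [2, 916], [3, 306], [3, 810], [3, 916], [4, 306], [4, 5, 810], [4, 916]])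
              (.leaf false [0, 4, 810, 2, 3, 306] [[0, 2], [0, 6, 3], [0, 306], [4, 2], [4, 3], [4, 306], [810, 2], [810, 3], [810, 1, 306]])))
            (.case 7 13
             (.case 4 14
              (.leaf false [0, 1, 813, 3, 306, 514] [[0, 7, 3], [0, 306], [0, 514], [1, 3], [1, 306], [1, 514], [813, 3], [813, 4, 306], [813, 2, 514]])
              (.case 4 16
               (.leaf false [0, 813, 516, 2, 3, 306] [[0, 2], [0, 7, 3], [0, 306], [813, 2], [813, 3], [813, 4, 306], [516, 2], [516, 3], [516, 1, 306]])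
               (.leaf false [0, 1, 813, 2, 3, 306] [[0, 2], [0, 6, 3], [0, 306], [1, 2], [1, 3], [1, 306], [813, 2], [813, 3], [813, 4, 306]])))
             (.leaf false [0, 3, 4, 1, 2, 306] [[0, 1], [0, 2], [0, 306], [3, 1], [3, 2], [3, 306], [4, 5, 1], [4, 2], [4, 306]]))))))
        (.case 2 8
         (.case 0 11
          (.case 5 13
           (.leaf false [0, 2, 613, 3, 308, 111] [[0, 6, 3], [0, 308], [0, 111], [2, 3], [2, 308], [2, 111], [613, 3], [613, 4, 308], [613, 1, 111]])
           (.case 6 12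
            (.leaf false [0, 3, 4, 7, 308, 712] [[0, 7], [0, 308], [0, 111, 5, 712], [3, 7], [3, 308], [3, 712], [4, 7], [4, 308], [4, 712]])
            (.leaf false [1, 5, 308, 3, 4, 111] [[1, 3], [1, 4], [1, 111], [5, 3], [5, 4], [5, 111], [308, 3], [308, 4], [308, 2, 111]])))
          (.case 0 13
           (.case 4 12
            (.leaf false [0, 308, 512, 2, 3, 113] [[0, 2], [0, 6, 3], [0, 113], [308, 2], [308, 3], [308, 4, 113], [512, 2], [512, 3], [512, 1, 113]])
            (.case 6 12
             (.leaf false [0, 3, 4, 2, 308, 712] [[0, 2], [0, 308], [0, 113, 1, 712], [3, 2], [3, 308], [3, 712], [4, 6, 2], [4, 308], [4, 712]])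
             (.leaf false [1, 308, 113, 2, 3, 4] [[1, 2], [1, 3], [1, 4], [308, 2], [308, 3], [308, 4], [113, 0, 2], [113, 5, 3], [113, 4]])))
           (.case 5 11
            (.case 6 14
             (.leaf false [0, 4, 611, 3, 308, 714] [[0, 7, 3], [0, 308], [0, 714], [4, 3], [4, 308], [4, 714], [611, 3], [611, 2, 308], [611, 1, 714]])
             (.case 6 16
              (.leaf false [1, 3, 4, 308, 611, 716] [[1, 0, 308], [1, 611], [1, 716], [3, 308], [3, 611], [3, 716], [4, 308], [4, 5, 611], [4, 716]])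
              (.leaf false [0, 4, 611, 1, 3, 308] [[0, 1], [0, 6, 3], [0, 308], [4, 1], [4, 3], [4, 308], [611, 1], [611, 3], [611, 2, 308]])))
            (.case 5 13
             (.case 0 15
              (.leaf false [0, 2, 613, 3, 308, 115] [[0, 7, 3], [0, 308], [0, 115], [2, 3], [2, 308], [2, 115], [613, 3], [613, 4, 308], [613, 1, 115]])
              (.case 0 17
               (.leaf false [0, 3, 4, 7, 308, 117] [[0, 7], [0, 308], [0, 117], [3, 7], [3, 308], [3, 613, 1, 117], [4, 7], [4, 308], [4, 117]])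
               (.leaf false [0, 3, 4, 2, 308, 613] [[0, 2], [0, 308], [0, 1, 613], [3, 2], [3, 308], [3, 613], [4, 6, 2], [4, 308], [4, 613]])))
             (.case 6 7
              (.leaf false [0, 308, 707, 2, 3, 4] [[0, 2], [0, 1, 3], [0, 4], [308, 2], [308, 3], [308, 4], [707, 2], [707, 3], [707, 4]])
              (.leaf false [0, 3, 4, 1, 2, 308] [[0, 1], [0, 2], [0, 308], [3, 1], [3, 2], [3, 308], [4, 1], [4, 5, 2], [4, 308]]))))))
         (.case 3 4
          (.case 5 18
           (.case 9 10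
            (.case 2 21
             (.leaf false [1, 3, 4, 404, 618, 1010] [[1, 404], [1, 618], [1, 1010], [3, 2, 404], [3, 618], [3, 1010], [4, 404], [4, 321, 7, 618], [4, 1010]])
             (.leaf false [0, 1, 4, 404, 618, 1010] [[0, 404], [0, 618], [0, 3, 1010], [1, 404], [1, 618], [1, 1010], [4, 404], [4, 7, 618], [4, 1010]]))
            (.case 9 11
             (.leaf false [2, 3, 4, 6, 404, 1011] [[2, 6], [2, 404], [2, 1011], [3, 6], [3, 618, 0, 404], [3, 1011], [4, 6], [4, 404], [4, 1011]])
             (.leaf false [0, 1, 4, 5, 404, 618] [[0, 2, 5], [0, 404], [0, 618], [1, 5], [1, 404], [1, 618], [4, 5], [4, 404], [4, 3, 618]])))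
           (.case 5 21
            (.case 7 14
             (.leaf false [0, 2, 621, 1, 404, 814] [[0, 1], [0, 404], [0, 814], [2, 5, 1], [2, 404], [2, 814], [621, 1], [621, 4, 404], [621, 3, 814]])
             (.case 7 17
              (.leaf false [1, 3, 4, 5, 404, 621] [[1, 5], [1, 404], [1, 621], [3, 5], [3, 817, 2, 404], [3, 621], [4, 5], [4, 404], [4, 621]])
              (.leaf false [0, 2, 621, 3, 4, 404] [[0, 3], [0, 6, 4], [0, 404], [2, 3], [2, 4], [2, 404], [621, 3], [621, 4], [621, 1, 404]])))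
            (.case 7 18
             (.case 9 19
              (.leaf false [1, 4, 818, 3, 404, 1019] [[1, 3], [1, 404], [1, 1019], [4, 5, 3], [4, 404], [4, 1019], [818, 3], [818, 2, 404], [818, 7, 1019]])
              (.leaf false [1, 4, 818, 3, 7, 404] [[1, 3], [1, 7], [1, 404], [4, 3], [4, 7], [4, 404], [818, 3], [818, 7], [818, 0, 404]]))
             (.case 7 21
              (.case 2 19
               (.leaf false [2, 4, 319, 3, 404, 821] [[2, 5, 3], [2, 404], [2, 821], [4, 3], [4, 404], [4, 821], [319, 3], [319, 1, 404], [319, 7, 821]])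
               (.leaf false [0, 1, 821, 3, 7, 404] [[0, 3], [0, 7], [0, 404], [1, 3], [1, 7], [1, 404], [821, 3], [821, 7], [821, 4, 404]]))
              (.leaf false [0, 3, 404, 1, 2, 4] [[0, 1], [0, 2], [0, 7, 4], [3, 1], [3, 2], [3, 4], [404, 1], [404, 2], [404, 4]])))))
          (.case 3 5
           (.case 4 14
            (.case 1 16
             (.leaf false [2, 6, 405, 4, 514, 216] [[2, 4], [2, 514], [2, 216], [6, 4], [6, 514], [6, 216], [405, 4], [405, 0, 514], [405, 3, 216]])
             (.case 8 16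
              (.leaf false [0, 1, 916, 4, 405, 514] [[0, 7, 4], [0, 405], [0, 514], [1, 4], [1, 405], [1, 514], [916, 4], [916, 3, 405], [916, 6, 514]])
              (.leaf false [0, 4, 514, 2, 3, 405] [[0, 2], [0, 3], [0, 405], [4, 2], [4, 3], [4, 405], [514, 2], [514, 6, 3], [514, 1, 405]])))
            (.case 4 17
             (.case 1 16
              (.leaf false [0, 3, 517, 1, 405, 216] [[0, 1], [0, 405], [0, 216], [3, 5, 1], [3, 405], [3, 216], [517, 1], [517, 4, 405], [517, 2, 216]])
              (.case 8 16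
               (.leaf false [0, 517, 916, 2, 4, 405] [[0, 2], [0, 7, 4], [0, 405], [517, 2], [517, 4], [517, 1, 405], [916, 2], [916, 4], [916, 3, 405]])
               (.leaf false [0, 4, 517, 2, 3, 405] [[0, 2], [0, 3], [0, 405], [4, 2], [4, 3], [4, 405], [517, 2], [517, 6, 3], [517, 1, 405]])))
             (.case 7 14
              (.case 8 19
               (.leaf false [1, 2, 4, 5, 405, 919] [[1, 5], [1, 405], [1, 919], [2, 5], [2, 814, 0, 405], [2, 919], [4, 5], [4, 405], [4, 919]])
               (.case 8 20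
                (.leaf false [2, 3, 4, 405, 814, 920] [[2, 1, 405], [2, 814], [2, 920], [3, 405], [3, 814], [3, 920], [4, 405], [4, 6, 814], [4, 920]])
                (.leaf false [0, 3, 4, 1, 405, 814] [[0, 1], [0, 405], [0, 814], [3, 7, 1], [3, 405], [3, 814], [4, 1], [4, 405], [4, 2, 814]])))
              (.case 7 17
               (.case 1 19
                (.leaf false [0, 1, 817, 3, 405, 219] [[0, 3], [0, 405], [0, 219], [1, 5, 3], [1, 405], [1, 219], [817, 3], [817, 4, 405], [817, 2, 219]])
                (.case 1 20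
                 (.leaf false [0, 2, 3, 405, 817, 220] [[0, 405], [0, 6, 817], [0, 220], [2, 1, 405], [2, 817], [2, 220], [3, 405], [3, 817], [3, 220]])
                 (.leaf false [0, 3, 4, 1, 405, 817] [[0, 1], [0, 405], [0, 2, 817], [3, 7, 1], [3, 405], [3, 817], [4, 1], [4, 405], [4, 817]])))
               (.leaf false [0, 2, 405, 1, 3, 4] [[0, 1], [0, 3], [0, 6, 4], [2, 1], [2, 3], [2, 4], [405, 1], [405, 3], [405, 4]])))))
           (.case 3 7
            (.case 4 18
             (.case 5 14
              (.case 6 20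
               (.leaf false [0, 1, 2, 407, 518, 614] [[0, 407], [0, 518], [0, 614], [1, 720, 4, 407], [1, 518], [1, 614], [2, 407], [2, 518], [2, 5, 3, 614]])
               (.leaf false [0, 1, 3, 407, 518, 614] [[0, 407], [0, 518], [0, 614], [1, 4, 407], [1, 518], [1, 614], [3, 407], [3, 7, 518], [3, 614]]))
              (.case 5 17
               (.leaf false [2, 407, 617, 3, 4, 518] [[2, 5, 3], [2, 4], [2, 518], [407, 3], [407, 4], [407, 0, 518], [617, 3], [617, 4], [617, 1, 518]])
               (.leaf false [0, 1, 407, 3, 4, 518] [[0, 3], [0, 6, 4], [0, 518], [1, 3], [1, 4], [1, 518], [407, 3], [407, 4], [407, 2, 518]])))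
             (.case 4 21
              (.case 0 20
               (.leaf false [2, 4, 120, 3, 407, 521] [[2, 5, 3], [2, 407], [2, 521], [4, 3], [4, 407], [4, 521], [120, 3], [120, 0, 407], [120, 7, 521]])
               (.case 6 20
                (.leaf true [1, 4, 407, 521, 720] [[1, 5, 4], [1, 0, 407], [1, 521], [1, 720], [4, 407], [4, 521], [4, 720], [407, 2, 521], [407, 3, 720], [521, 7, 720]])
                (.leaf false [0, 4, 521, 1, 3, 407] [[0, 1], [0, 3], [0, 407], [4, 1], [4, 3], [4, 407], [521, 1], [521, 7, 3], [521, 2, 407]])))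
              (.case 5 18
               (.case 6 15
                (.leaf false [2, 4, 618, 3, 407, 715] [[2, 5, 3], [2, 407], [2, 715], [4, 3], [4, 407], [4, 715], [618, 3], [618, 0, 407], [618, 1, 715]])
                (.case 6 16
                 (.leaf false [1, 3, 4, 407, 618, 716] [[1, 2, 407], [1, 618], [1, 716], [3, 407], [3, 618], [3, 716], [4, 407], [4, 7, 618], [4, 716]])
                 (.leaf false [0, 3, 4, 2, 407, 618] [[0, 2], [0, 407], [0, 618], [3, 6, 2], [3, 407], [3, 618], [4, 2], [4, 407], [4, 1, 618]])))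
               (.case 5 21
                (.case 0 15
                 (.leaf false [1, 3, 4, 5, 407, 621] [[1, 5], [1, 115, 2, 407], [1, 621], [3, 5], [3, 407], [3, 621], [4, 5], [4, 407], [4, 621]])
                 (.case 0 16
                  (.leaf false [0, 1, 3, 407, 621, 116] [[0, 407], [0, 7, 621], [0, 116], [1, 2, 407], [1, 621], [1, 116], [3, 407], [3, 621], [3, 116]])
                  (.leaf false [0, 3, 4, 2, 407, 621] [[0, 2], [0, 407], [0, 1, 621], [3, 6, 2], [3, 407], [3, 621], [4, 2], [4, 407], [4, 621]])))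
                (.leaf false [0, 1, 407, 2, 3, 4] [[0, 2], [0, 3], [0, 7, 4], [1, 2], [1, 3], [1, 4], [407, 2], [407, 3], [407, 4]])))))
            (.case 4 9
             (.case 0 20
              (.case 1 16
               (.leaf false [0, 3, 509, 4, 120, 216] [[0, 4], [0, 120], [0, 216], [3, 5, 4], [3, 120], [3, 216], [509, 4], [509, 1, 120], [509, 2, 216]])
               (.case 1 17
                (.leaf false [2, 4, 120, 3, 509, 217] [[2, 3], [2, 509], [2, 217], [4, 5, 3], [4, 509], [4, 217], [120, 3], [120, 1, 509], [120, 0, 217]])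
                (.leaf false [0, 1, 3, 4, 509, 120] [[0, 4], [0, 2, 509], [0, 120], [1, 4], [1, 509], [1, 120], [3, 6, 4], [3, 509], [3, 120]])))
              (.case 0 21
               (.case 1 16
                (.leaf false [2, 3, 121, 4, 509, 216] [[2, 4], [2, 509], [2, 216], [3, 5, 4], [3, 509], [3, 216], [121, 4], [121, 1, 509], [121, 0, 216]])
                (.case 1 17
                 (.leaf false [0, 4, 509, 3, 121, 217] [[0, 3], [0, 121], [0, 217], [4, 5, 3], [4, 121], [4, 217], [509, 3], [509, 1, 121], [509, 2, 217]])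
                 (.leaf false [0, 1, 4, 3, 509, 121] [[0, 3], [0, 2, 509], [0, 121], [1, 3], [1, 509], [1, 121], [4, 6, 3], [4, 509], [4, 121]])))
               (.case 1 20
                (.case 3 19
                 (.leaf false [2, 3, 419, 4, 509, 220] [[2, 4], [2, 509], [2, 220], [3, 5, 4], [3, 509], [3, 220], [419, 4], [419, 1, 509], [419, 7, 220]])
                 (.leaf false [0, 7, 509, 1, 4, 220] [[0, 1], [0, 4], [0, 220], [7, 1], [7, 4], [7, 220], [509, 1], [509, 4], [509, 3, 220]]))
                (.case 1 21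
                 (.case 2 19
                  (.leaf false [2, 4, 319, 3, 509, 221] [[2, 3], [2, 509], [2, 221], [4, 6, 3], [4, 509], [4, 221], [319, 3], [319, 1, 509], [319, 0, 221]])
                  (.leaf false [0, 7, 509, 1, 3, 221] [[0, 1], [0, 3], [0, 221], [7, 1], [7, 3], [7, 221], [509, 1], [509, 3], [509, 4, 221]]))
                 (.leaf false [0, 3, 509, 1, 2, 4] [[0, 1], [0, 2], [0, 4], [3, 1], [3, 2], [3, 7, 4], [509, 1], [509, 2], [509, 4]])))))
             (.case 5 8
              (.case 0 11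
               (.case 3 19
                (.case 1 12
                 (.leaf false [0, 1, 2, 111, 419, 212] [[0, 111], [0, 419], [0, 212], [1, 111], [1, 419], [1, 608, 3, 212], [2, 111], [2, 6, 4, 419], [2, 212]])
                 (.leaf false [0, 1, 4, 608, 111, 419] [[0, 2, 608], [0, 111], [0, 419], [1, 608], [1, 111], [1, 419], [4, 608], [4, 3, 5, 111], [4, 419]]))
                (.case 3 20
                 (.leaf false [0, 3, 4, 6, 608, 420] [[0, 6], [0, 111, 2, 608], [0, 420], [3, 6], [3, 608], [3, 420], [4, 6], [4, 608], [4, 420]])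
                 (.leaf false [0, 1, 608, 3, 4, 111] [[0, 3], [0, 4], [0, 111], [1, 7, 3], [1, 4], [1, 111], [608, 3], [608, 4], [608, 2, 111]])))
               (.case 0 13
                (.case 2 15
                 (.leaf false [1, 4, 315, 3, 608, 113] [[1, 7, 3], [1, 608], [1, 113], [4, 3], [4, 608], [4, 113], [315, 3], [315, 2, 608], [315, 0, 113]])
                 (.case 2 17
                  (.leaf false [0, 3, 4, 7, 608, 317] [[0, 7], [0, 113, 1, 608], [0, 317], [3, 7], [3, 608], [3, 317], [4, 7], [4, 608], [4, 317]])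
                  (.leaf false [0, 4, 608, 2, 3, 113] [[0, 2], [0, 3], [0, 113], [4, 6, 2], [4, 3], [4, 113], [608, 2], [608, 3], [608, 1, 113]])))
                (.case 2 11
                 (.case 3 10
                  (.leaf false [0, 4, 311, 3, 608, 410] [[0, 6, 3], [0, 1, 608], [0, 410], [4, 3], [4, 608], [4, 410], [311, 3], [311, 2, 608], [311, 5, 410]])
                  (.leaf false [0, 5, 608, 1, 4, 311] [[0, 1], [0, 4], [0, 311], [5, 1], [5, 4], [5, 311], [608, 1], [608, 4], [608, 2, 311]]))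
                 (.case 2 13
                  (.case 1 10
                   (.leaf false [2, 608, 313, 3, 4, 210] [[2, 3], [2, 6, 4], [2, 210], [608, 3], [608, 4], [608, 1, 210], [313, 3], [313, 4], [313, 0, 210]])
                   (.leaf false [0, 5, 608, 1, 2, 313] [[0, 1], [0, 2], [0, 313], [5, 1], [5, 2], [5, 313], [608, 1], [608, 2], [608, 3, 313]]))
                  (.leaf false [0, 4, 608, 1, 2, 3] [[0, 1], [0, 2], [0, 3], [4, 1], [4, 5, 2], [4, 3], [608, 1], [608, 2], [608, 3]])))))
              (.case 6 7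
               (.case 0 11
                (.case 1 13
                 (.leaf false [0, 5, 707, 3, 111, 213] [[0, 3], [0, 111], [0, 213], [5, 3], [5, 111], [5, 213], [707, 3], [707, 1, 111], [707, 4, 213]])
                 (.case 2 13
                  (.leaf false [1, 2, 313, 3, 707, 111] [[1, 3], [1, 707], [1, 111], [2, 6, 3], [2, 707], [2, 111], [313, 3], [313, 4, 707], [313, 0, 111]])
                  (.leaf false [0, 4, 707, 2, 3, 111] [[0, 2], [0, 3], [0, 111], [4, 2], [4, 3], [4, 5, 111], [707, 2], [707, 3], [707, 1, 111]])))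
                (.case 0 12
                 (.case 1 13
                  (.leaf false [1, 707, 213, 2, 4, 112] [[1, 2], [1, 7, 4], [1, 112], [707, 2], [707, 4], [707, 3, 112], [213, 2], [213, 4], [213, 0, 112]])
                  (.case 2 13
                   (.leaf false [1, 3, 4, 2, 707, 313] [[1, 2], [1, 707], [1, 112, 0, 313], [3, 6, 2], [3, 707], [3, 313], [4, 2], [4, 707], [4, 313]])
                   (.leaf false [0, 4, 707, 2, 3, 112] [[0, 2], [0, 3], [0, 112], [4, 2], [4, 3], [4, 5, 112], [707, 2], [707, 3], [707, 1, 112]])))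
                 (.case 3 11
                  (.case 2 10
                   (.leaf false [0, 707, 310, 1, 3, 411] [[0, 1], [0, 7, 3], [0, 411], [707, 1], [707, 3], [707, 2, 411], [310, 1], [310, 3], [310, 5, 411]])
                   (.leaf false [0, 5, 707, 1, 3, 411] [[0, 1], [0, 3], [0, 411], [5, 1], [5, 3], [5, 411], [707, 1], [707, 3], [707, 2, 411]]))
                  (.case 3 12
                   (.case 1 10
                    (.leaf false [1, 2, 412, 4, 707, 210] [[1, 7, 4], [1, 707], [1, 210], [2, 4], [2, 707], [2, 210], [412, 4], [412, 3, 707], [412, 5, 210]])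
                    (.leaf false [0, 5, 707, 1, 2, 412] [[0, 1], [0, 2], [0, 412], [5, 1], [5, 2], [5, 412], [707, 1], [707, 2], [707, 4, 412]]))
                   (.leaf false [0, 2, 707, 1, 3, 4] [[0, 1], [0, 3], [0, 4], [2, 1], [2, 5, 3], [2, 4], [707, 1], [707, 3], [707, 4]])))))
               (.leaf true [0, 1, 2, 3, 4] [[0, 1], [0, 2], [0, 3], [0, 4], [1, 2], [1, 3], [1, 4], [2, 3], [2, 4], [3, 4]]))))))))))))))))

end OPC
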