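import Pool.Agent.Helper84.OPC.Base
import Pool.Agent.Helper84.OPC.Comp
import Pool.Agent.Helper84.OPC.Kur

set_option autoImplicit false

/-!
MP_ec87e6_co: every 1-planar chordal graph of toughness at least 3/2 is Hamiltonian.  Definitions.
-/

open Finset

namespace OPC

/-- the toughness of `G` is (finite and equal to) `t` -/
def HasToughness {V : Type} (G : SimpleGraph V) (t : ℚ) : Prop :=
  IsLeast {q : ℚ | ∃ X : Finset V, X.Nonempty ∧ 1 < comps G X ∧ q = X.card / comps G X} t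

/-! ### Graphs -/

section graph
variable {V : Type} [Fintype V] [DecidableEq V] (G : SimpleGraph V)

/-- no edge leaves `A`, except to `X` -/
def Closed (A X : Finset V) : Prop := ∀ a ∈ A, ∀ b, G.Adj a b → b ∈ A ∨ b ∈ X

/-- a family of pairwise disjoint nonempty subsets of `D \ X` without edges leaving them, except to
`X ∪ R` -/
def Fam (D X R : Finset V) (F : Finset (Finset V)) : Prop :=
  (∀ A ∈ F, A.Nonempty ∧ A ⊆ D ∧ Disjoint A X ∧ Closed G A (X ∪ R)) ∧
    ∀ A ∈ F, ∀ B ∈ F, A ≠ B → Disjoint A B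

/-- toughness at least 3/2 -/
def Tough : Prop := ∀ (X : Finset V) (F : Finset (Finset V)), Fam G univ X ∅ F → 2 ≤ F.card →
  3 * F.card ≤ 2 * X.card

/-- a cut: `X ⊆ D` of `x` vertices such that `D \ X` contains at least `(2 x + m) / 3` parts which
send edges only to `X ∪ R` -/
def Cut (D R : Finset V) (m : ℕ) : Prop :=
  ∃ (X : Finset V) (F : Finset (Finset V)), X ⊆ D ∧ Fam G D X R F ∧ F.Nonempty ∧
    2 * X.card + m ≤ 3 * F.card

/-- there is a path from `a` to `b` whose set of inner vertices is `I` -/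
def PC (a b : V) (I : Finset V) : Prop :=
  a ≠ b ∧ a ∉ I ∧ b ∉ I ∧ ∃ p : G.Walk a b, p.IsPath ∧ ∀ v, v ∈ p.support ↔ v = a ∨ v = b ∨ v ∈ I

/-- `C` does not split -/
def ConnS (C : Finset V) : Prop :=
  ∀ A ⊆ C, A.Nonempty → (∀ a ∈ A, ∀ b ∈ C, G.Adj a b → b ∈ A) → A = C

/-- `C` is a component of `G - T`, `T` is a clique, and `C` and some other component send edges to
all vertices of `T` -/
structure Piece (C T : Finset V) : Prop where
  ne : C.Nonempty
  conn : ConnS G C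
  disj : Disjoint C T
  clique : ∀ s ∈ T, ∀ t ∈ T, s ≠ t → G.Adj s t
  nb : ∀ c ∈ C, ∀ b, G.Adj c b → b ∈ C ∨ b ∈ T
  full : ∀ t ∈ T, ∃ c ∈ C, G.Adj c t
  out : ∃ o, o ∉ C ∧ o ∉ T ∧ ∀ t ∈ T, G.Adj o t

/-- `G` does not contain `K₄ ∨ 3 K₁` -/
def NoK : Prop := ∀ (κ : Fin 4 → V) (u : Fin 3 → V), Function.Injective κ → Function.Injective u →
  (∀ i j, i ≠ j → G.Adj (κ i) (κ j)) → (∀ i j, G.Adj (u i) (κ j)) → False

/-- `G` does not contain `K₅` with three further vertices adjacent to different sets of four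
vertices -/
def NoW : Prop := ∀ (κ : Fin 5 → V) (u : Fin 3 → V) (x : Fin 3 → Fin 5), Function.Injective κ →
  Function.Injective u → Function.Injective x → (∀ i j, i ≠ j → G.Adj (κ i) (κ j)) →
  (∀ i j, u i ≠ κ j) → (∀ i j, j ≠ x i → G.Adj (u i) (κ j)) → False

end graph

/-! ### Bags -/

section bag
variable {V : Type} [Fintype V] [DecidableEq V]

/-- the set of vertices with numbers in the mask `M` -/
def ks (κ : ℕ → V) (M : ℕ) : Finset V := ((range 6).filter fun i => M.testBit i = true).image κ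

/-- union of a list of sets -/
def un (Ds : List (Finset V)) : Finset V := Ds.foldr (fun A B => A ∪ B) ∅

/-- the cuts of the list `cu` are available for `D` -/
def RCu (G : SimpleGraph V) (κ : ℕ → V) (cu : Cu) (D : Finset V) : Prop :=
  ∀ x ∈ cu, Cut G D (ks κ x.1) x.2

/-- the traces of the list `tr` are available for `D` -/
def RTr (G : SimpleGraph V) (κ : ℕ → V) (tr : Tr) (D : Finset V) : Prop :=
  ∀ x ∈ tr, PC G (κ x.1) (κ x.2.1) (D ∪ ks κ x.2.2)

/-- the clique `K = κ '' {0, ..., r - 1}` (a bag) in a piece `(C, T)`, `T = κ '' {0, ..., t - 1}`;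
`Ds` are the components of `C \ K` (the kids) -/
structure Bag (G : SimpleGraph V) (C T : Finset V) (r t : ℕ) (κ : ℕ → V)
    (Ds : List (Finset V)) : Prop where
  r6 : r ≤ 6
  tr : t < r
  inj : ∀ i < r, ∀ j < r, κ i = κ j → i = j
  adj : ∀ i < r, ∀ j < r, i ≠ j → G.Adj (κ i) (κ j)
  T_eq : T = (range t).image κ
  C_eq : C = (range r \ range t).image κ ∪ un Ds
  CT : Disjoint C T
  nb : ∀ c ∈ C, ∀ b, G.Adj c b → b ∈ C ∨ b ∈ T
  pw : Ds.Pairwise Disjoint
  dK : ∀ D ∈ Ds, ∀ i < r, κ i ∉ D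
  cl : ∀ D ∈ Ds, ∀ d ∈ D, ∀ b, G.Adj d b → b ∈ D ∨ ∃ i < r, b = κ i
  out : ∃ o, o ∉ C ∧ o ∉ T

/-- `D` is a kid attached to `κ c, κ b, κ a` -/
def K3 (G : SimpleGraph V) (κ : ℕ → V) (r t : ℕ) (D : Finset V) : Prop :=
  ∃ a b c, c < b ∧ b < a ∧ a < r ∧ t ≤ a ∧ Piece G D {κ c, κ b, κ a}

/-- `D` is a kid attached to the four of `κ 0, ..., κ 4` with number different from `x` -/
def K4 (G : SimpleGraph V) (κ : ℕ → V) (x : ℕ) (D : Finset V) : Prop :=
  x < 5 ∧ Piece G D ((range 4).image fun i => κ (pos x i))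

/-- conclusion for pieces with three attachments -/
def Cl3 (G : SimpleGraph V) (C T : Finset V) : Prop := ∀ a ∈ T, ∀ b ∈ T, a ≠ b → PC G a b C

/-- conclusion for pieces with four attachments -/
def Cl4 (G : SimpleGraph V) (C T : Finset V) : Prop :=
  ∀ τ : ℕ → V, (∀ i < 4, ∀ j < 4, τ i = τ j → i = j) → T = (range 4).image τ →
    ∃ g ∈ LS, ∃ tr ∈ g.2, RCu G τ g.1 C ∧ RTr G τ tr C

end bag

/-! ### Pictures -/

/-- a 1-planar drawing of the graph with vertices `0, ..., n - 1` and the edges `E` -/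
structure Pict (n : ℕ) (E : List (ℕ × ℕ)) where
  pt : ℕ → ℝ × ℝ
  arc : ℕ → Set (ℝ × ℝ)
  inj : ∀ i < n, ∀ j < n, pt i = pt j → i = j
  path : ∀ e < E.length, ∃ γ : unitInterval → ℝ × ℝ, Continuous γ ∧ Function.Injective γ ∧
    γ 0 = pt (ed E e).1 ∧ γ 1 = pt (ed E e).2 ∧ Set.range γ = arc e
  avoid : ∀ e < E.length, ∀ v < n, pt v ∈ arc e → inc E v e = true
  one : ∀ e < E.length, ∀ f < E.length, ∀ g < E.length, f ≠ e → g ≠ e →
    (∃ x, x ∈ arc e ∧ x ∈ arc f ∧ ∀ v < n, x ≠ pt v) →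
    (∃ x, x ∈ arc e ∧ x ∈ arc g ∧ ∀ v < n, x ≠ pt v) → f = g

/-- the ends of the edges are different vertices below `n`, and the edges are different -/
def wfE (n : ℕ) (E : List (ℕ × ℕ)) : Bool :=
  (E.all fun x => decide (x.1 < x.2) && decide (x.2 < n)) && decide E.Nodup && decide (n < 100) &&
    decide (E.length < 100)

end OPC
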