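import Pool.Agent.Helper84.OPC.Stmts

set_option autoImplicit false

/-!
MP_ec87e6_co, module LEAF: a leaf of a decision tree is contradictory.
-/

open Finset

namespace OPC

section leaf

variable {n : ℕ} {E : List (ℕ × ℕ)}

theorem leaf_joined (γ : unitInterval → ℝ × ℝ) (hγ : Continuous γ) {a b : ℝ} (hab : a ≤ b) :
    JoinedIn (Set.IccExtend zero_le_one γ '' Set.Icc a b)
      (Set.IccExtend zero_le_one γ a) (Set.IccExtend zero_le_one γ b) := by
  have h1 : IsPathConnected (Set.Icc a b) := (convex_Icc a b).isPathConnected ⟨a, le_rfl, hab⟩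
  have h2 : IsPathConnected (Set.IccExtend zero_le_one γ '' Set.Icc a b) :=
    h1.image (hγ.Icc_extend' (h := zero_le_one))
  exact h2.joinedIn _ ⟨a, ⟨le_rfl, hab⟩, rfl⟩ _ ⟨b, ⟨hab, le_rfl⟩, rfl⟩

theorem leaf_inc {v e : ℕ} (h : inc E v e = true) : v = (ed E e).1 ∨ v = (ed E e).2 := by
  unfold inc at h
  rw [Bool.or_eq_true, beq_iff_eq, beq_iff_eq] at h
  exact h

theorem leaf_dsj {e f v : ℕ} (h : dsj E e f = true) (h1 : inc E v e = true) :
    inc E v f = false := by
  unfold dsj at h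
  rw [Bool.and_eq_true, Bool.not_eq_true', Bool.not_eq_true'] at h
  rcases leaf_inc h1 with h2 | h2
  · rw [h2]; exact h.1
  · rw [h2]; exact h.2

theorem leaf_ed_lt (hw : wfE n E = true) {e : ℕ} (he : e < E.length) :
    (ed E e).1 < (ed E e).2 ∧ (ed E e).2 < n := by
  unfold wfE at hw
  simp only [Bool.and_eq_true, List.all_eq_true, decide_eq_true_eq] at hw
  have h1 : ed E e ∈ E := by
    unfold ed
    rw [List.getD_eq_getElem _ _ he]
    exact List.getElem_mem he
  exact hw.1.1.1 _ h1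

/-- a piece of the arc number `g` from the end `v` to the non-vertex point `x` -/
theorem leaf_leg (hw : wfE n E = true) (P : Pict n E) {g v : ℕ} (hg : g < E.length)
    (hv : inc E v g = true) {x : ℝ × ℝ} (hx : x ∈ P.arc g) (hxn : ∀ u < n, x ≠ P.pt u) :
    ∃ L : Set (ℝ × ℝ), L ⊆ P.arc g ∧ JoinedIn L (P.pt v) x ∧ ∀ u < n, P.pt u ∈ L → u = v := by
  obtain ⟨γ, hγc, hγi, hγ0, hγ1, hγr⟩ := P.path g hg
  obtain ⟨hlt, hlt2⟩ := leaf_ed_lt hw hg
  rw [← hγr] at hx
  obtain ⟨t, ht⟩ := hx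
  have ht0 : t ≠ 0 := by
    rintro rfl
    exact hxn _ (hlt.trans hlt2) (by rw [← ht, hγ0])
  have ht1 : t ≠ 1 := by
    rintro rfl
    exact hxn _ hlt2 (by rw [← ht, hγ1])
  have hsub : ∀ a b : ℝ, Set.IccExtend zero_le_one γ '' Set.Icc a b ⊆ P.arc g := by
    rintro a b _ ⟨s, _, rfl⟩
    rw [← hγr]
    exact ⟨Set.projIcc 0 1 zero_le_one s, rfl⟩
  have hval : ∀ s : unitInterval, Set.IccExtend zero_le_one γ (s : ℝ) = γ s := fun s =>
    Set.IccExtend_val zero_le_one γ s
  have hv0 : Set.IccExtend zero_le_one γ 0 = P.pt (ed E g).1 := by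
    have := hval 0
    rw [hγ0] at this
    exact this
  have hv1 : Set.IccExtend zero_le_one γ 1 = P.pt (ed E g).2 := by
    have := hval 1
    rw [hγ1] at this
    exact this
  have hinj : ∀ s ∈ Set.Icc (0 : ℝ) 1, ∀ s' ∈ Set.Icc (0 : ℝ) 1,
      Set.IccExtend zero_le_one γ s = Set.IccExtend zero_le_one γ s' → s = s' := by
    intro s hs s' hs' h
    rw [Set.IccExtend_of_mem zero_le_one γ hs, Set.IccExtend_of_mem zero_le_one γ hs'] at h
    exact congrArg Subtype.val (hγi h)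
  have hne : (ed E g).1 ≠ (ed E g).2 := hlt.ne
  have ht0' : (0 : ℝ) < t := lt_of_le_of_ne t.2.1 fun h => ht0 (Subtype.ext h.symm)
  have ht1' : (t : ℝ) < 1 := lt_of_le_of_ne t.2.2 fun h => ht1 (Subtype.ext h)
  rcases leaf_inc hv with h1 | h1
  · refine ⟨Set.IccExtend zero_le_one γ '' Set.Icc 0 (t : ℝ), hsub _ _, ?_, ?_⟩
    · have := leaf_joined γ hγc t.2.1
      rw [hv0, hval, ht] at this
      rw [h1]
      exact this
    · intro u hu hmem
      rcases leaf_inc (P.avoid g hg u hu (hsub _ _ hmem)) with h2 | h2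
      · rw [h1, h2]
      · exfalso
        obtain ⟨s, hs, hs'⟩ := hmem
        rw [h2, ← hv1] at hs'
        have := hinj s ⟨hs.1, hs.2.trans t.2.2⟩ 1 ⟨zero_le_one, le_rfl⟩ hs'
        linarith [hs.2]
  · refine ⟨Set.IccExtend zero_le_one γ '' Set.Icc (t : ℝ) 1, hsub _ _, ?_, ?_⟩
    · have := leaf_joined γ hγc t.2.2
      rw [hv1, hval, ht] at this
      rw [h1]
      exact this.symm
    · intro u hu hmem
      rcases leaf_inc (P.avoid g hg u hu (hsub _ _ hmem)) with h2 | h2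
      · exfalso
        obtain ⟨s, hs, hs'⟩ := hmem
        rw [h2, ← hv0] at hs'
        have := hinj s ⟨t.2.1.trans hs.1, hs.2⟩ 0 ⟨le_rfl, zero_le_one⟩ hs'
        linarith [hs.1]
      · rw [h1, h2]

theorem leaf_real (P : Pict n E) {g : ℕ} (hg : g < E.length) :
    JoinedIn (P.arc g) (P.pt (ed E g).1) (P.pt (ed E g).2) := by
  obtain ⟨γ, hγc, hγi, hγ0, hγ1, hγr⟩ := P.path g hg
  have h := leaf_joined γ hγc (zero_le_one (α := ℝ))
  have hval : ∀ s : unitInterval, Set.IccExtend zero_le_one γ (s : ℝ) = γ s := fun s =>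
    Set.IccExtend_val zero_le_one γ s
  have h0 := hval 0
  have h1 := hval 1
  rw [hγ0] at h0
  rw [hγ1] at h1
  have h0' : Set.IccExtend zero_le_one γ 0 = P.pt (ed E g).1 := h0
  have h1' : Set.IccExtend zero_le_one γ 1 = P.pt (ed E g).2 := h1
  rw [h0', h1'] at h
  refine h.mono ?_
  rintro _ ⟨s, _, rfl⟩
  rw [← hγr]
  exact ⟨Set.projIcc 0 1 zero_le_one s, rfl⟩

end leaf

/-- data of a leaf -/
structure LeafCtx (n : ℕ) (E : List (ℕ × ℕ)) (P : Pict n E) (X N : List (ℕ × ℕ)) : Prop where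
  w : wfE n E = true
  hX : ∀ x ∈ X, x.1 < E.length ∧ x.2 < E.length ∧ dsj E x.1 x.2 = true ∧
    (P.arc x.1 ∩ P.arc x.2).Nonempty
  hN : ∀ x ∈ N, ¬ (P.arc x.1 ∩ P.arc x.2).Nonempty

section ctx

variable {n : ℕ} {E : List (ℕ × ℕ)} {P : Pict n E} {X N : List (ℕ × ℕ)}

open Classical in
/-- the crossing point with code `c` -/
noncomputable def leafCp (P : Pict n E) (c : ℕ) : ℝ × ℝ :=
  if h : (P.arc (c / 100 - 1) ∩ P.arc (c % 100)).Nonempty then h.some else P.pt 0

/-- the point of a node -/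
noncomputable def leafPt (P : Pict n E) (a : ℕ) : ℝ × ℝ := if a < 100 then P.pt a else leafCp P a

theorem leaf_cp (hC : LeafCtx n E P X N) {c : ℕ} (hc : (c / 100 - 1, c % 100) ∈ X) :
    leafCp P c ∈ P.arc (c / 100 - 1) ∧ leafCp P c ∈ P.arc (c % 100) ∧
      ∀ u < n, leafCp P c ≠ P.pt u := by
  obtain ⟨h1, h2, h3, h4⟩ := hC.hX _ hc
  simp only at h1 h2 h3 h4
  have h5 : leafCp P c ∈ P.arc (c / 100 - 1) ∩ P.arc (c % 100) := by
    unfold leafCp
    rw [dif_pos h4]
    exact h4.some_mem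
  refine ⟨h5.1, h5.2, fun u hu h6 => ?_⟩
  have h7 := P.avoid _ h1 u hu (h6 ▸ h5.1)
  have h8 := P.avoid _ h2 u hu (h6 ▸ h5.2)
  rw [leaf_dsj h3 h7] at h8
  exact Bool.false_ne_true h8

/-- valid segments -/
def LeafSeg (E X : List (ℕ × ℕ)) (s : Seg) : Prop :=
  (s.2.2 = 0 ∧ s.1 < E.length) ∨
  (s.2.2 ≠ 0 ∧ (s.2.2 / 100 - 1, s.2.2 % 100) ∈ X ∧
    (s.1 = s.2.2 / 100 - 1 ∨ s.1 = s.2.2 % 100) ∧ inc E s.2.1 s.1 = true)

theorem leaf_legex (hC : LeafCtx n E P X N) {s : Seg} (h1 : (s.2.2 / 100 - 1, s.2.2 % 100) ∈ X)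
    (h2 : s.1 = s.2.2 / 100 - 1 ∨ s.1 = s.2.2 % 100) (h3 : inc E s.2.1 s.1 = true) :
    ∃ L : Set (ℝ × ℝ), L ⊆ P.arc s.1 ∧ JoinedIn L (P.pt s.2.1) (leafCp P s.2.2) ∧
      ∀ u < n, P.pt u ∈ L → u = s.2.1 := by
  obtain ⟨h4, h5, h6⟩ := leaf_cp hC h1
  obtain ⟨h7, h8, _, _⟩ := hC.hX _ h1
  rcases h2 with h2 | h2
  · exact leaf_leg hC.w P (by rw [h2]; exact h7) h3 (by rw [h2]; exact h4) h6
  · exact leaf_leg hC.w P (by rw [h2]; exact h8) h3 (by rw [h2]; exact h5) h6

open Classical in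
/-- the set of a segment -/
noncomputable def leafSet (P : Pict n E) (s : Seg) : Set (ℝ × ℝ) :=
  if s.2.2 = 0 then P.arc s.1 else
    if h : ∃ L : Set (ℝ × ℝ), L ⊆ P.arc s.1 ∧ JoinedIn L (P.pt s.2.1) (leafCp P s.2.2) ∧
      ∀ u < n, P.pt u ∈ L → u = s.2.1 then h.choose else ∅

theorem leaf_set_real {s : Seg} (h : s.2.2 = 0) : leafSet P s = P.arc s.1 := by
  unfold leafSet
  rw [if_pos h]

theorem leaf_set_leg (hC : LeafCtx n E P X N) {s : Seg} (h0 : s.2.2 ≠ 0)
    (h1 : (s.2.2 / 100 - 1, s.2.2 % 100) ∈ X)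
    (h2 : s.1 = s.2.2 / 100 - 1 ∨ s.1 = s.2.2 % 100) (h3 : inc E s.2.1 s.1 = true) :
    leafSet P s ⊆ P.arc s.1 ∧ JoinedIn (leafSet P s) (P.pt s.2.1) (leafCp P s.2.2) ∧
      ∀ u < n, P.pt u ∈ leafSet P s → u = s.2.1 := by
  have h := leaf_legex hC h1 h2 h3
  have h4 : leafSet P s = h.choose := by
    unfold leafSet
    rw [if_neg h0, dif_pos h]
  rw [h4]
  exact h.choose_spec

theorem leaf_seg1 (hC : LeafCtx n E P X N) {v b : ℕ} {s : Seg} (hv : v < 100)
    (h : seg1 E X v b = some s) :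
    LeafSeg E X s ∧ JoinedIn (leafSet P s) (leafPt P v) (leafPt P b) := by
  unfold seg1 at h
  have hpv : leafPt P v = P.pt v := by unfold leafPt; rw [if_pos hv]
  rw [hpv]
  split_ifs at h with hb h1 h2 h3 h4 h5
  · injection h with h
    subst h
    have hlt : E.idxOf (v, b) < E.length := List.idxOf_lt_length_iff.2 h1
    have hed : ed E (E.idxOf (v, b)) = (v, b) := by
      unfold ed
      rw [List.getD_eq_getElem _ _ hlt]
      exact List.getElem_idxOf hlt
    refine ⟨Or.inl ⟨rfl, hlt⟩, ?_⟩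
    rw [leaf_set_real rfl]
    have h6 := leaf_real P hlt
    rw [hed] at h6
    unfold leafPt
    rw [if_pos hb]
    exact h6
  · injection h with h
    subst h
    have hlt : E.idxOf (b, v) < E.length := List.idxOf_lt_length_iff.2 h2
    have hed : ed E (E.idxOf (b, v)) = (b, v) := by
      unfold ed
      rw [List.getD_eq_getElem _ _ hlt]
      exact List.getElem_idxOf hlt
    refine ⟨Or.inl ⟨rfl, hlt⟩, ?_⟩
    rw [leaf_set_real rfl]
    have h6 := leaf_real P hlt
    rw [hed] at h6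
    unfold leafPt
    rw [if_pos hb]
    exact h6.symm
  · injection h with h
    subst h
    have hb0 : b ≠ 0 := by omega
    have h6 := leaf_set_leg hC (s := (b / 100 - 1, v, b)) hb0 h3 (Or.inl rfl) h4
    refine ⟨Or.inr ⟨hb0, h3, Or.inl rfl, h4⟩, ?_⟩
    unfold leafPt
    rw [if_neg hb]
    exact h6.2.1
  · injection h with h
    subst h
    have hb0 : b ≠ 0 := by omega
    have h6 := leaf_set_leg hC (s := (b % 100, v, b)) hb0 h3 (Or.inr rfl) h5
    refine ⟨Or.inr ⟨hb0, h3, Or.inr rfl, h5⟩, ?_⟩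
    unfold leafPt
    rw [if_neg hb]
    exact h6.2.1

theorem leaf_seg (hC : LeafCtx n E P X N) {a b : ℕ} {s : Seg} (h : seg E X a b = some s) :
    LeafSeg E X s ∧ JoinedIn (leafSet P s) (leafPt P a) (leafPt P b) := by
  unfold seg at h
  split_ifs at h with h1 h2
  · exact leaf_seg1 hC h1 h
  · obtain ⟨h3, h4⟩ := leaf_seg1 hC h2 h
    exact ⟨h3, h4.symm⟩

/-- the set of a route -/
noncomputable def leafUn (P : Pict n E) (l : List Seg) : Set (ℝ × ℝ) := ⋃ s ∈ l, leafSet P s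

theorem leaf_segs (hC : LeafCtx n E P X N) : ∀ (r : List ℕ) (l : List Seg), segs E X r = some l →
    2 ≤ r.length → ∀ a b, r.head? = some a → r.getLast? = some b →
      (∀ s ∈ l, LeafSeg E X s) ∧ JoinedIn (leafUn P l) (leafPt P a) (leafPt P b)
  | [], l, h, hl, _, _, _, _ => by simp at hl
  | [c], l, h, hl, _, _, _, _ => by simp at hl
  | [c, d], l, h, _, a, b, ha, hb => by
    simp only [segs] at h
    have ha' : c = a := by simpa using ha
    have hb' : d = b := by simpa using hb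
    subst ha'
    subst hb'
    split at h
    · rename_i s t h1 h2
      injection h with h
      subst h
      have h3 : t = [] := by injection h2 with h2; exact h2.symm
      subst h3
      obtain ⟨h4, h5⟩ := leaf_seg hC h1
      refine ⟨by simpa using h4, ?_⟩
      refine h5.mono ?_
      intro y hy
      exact Set.mem_biUnion (List.mem_singleton.2 rfl) hy
    · exact absurd h (by simp)
  | c :: d :: e :: r, l, h, _, a, b, ha, hb => by
    rw [segs] at h
    have ha' : c = a := by simpa using ha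
    subst ha'
    split at h
    · rename_i s t h1 h2
      injection h with h
      subst h
      have hb2 : (d :: e :: r).getLast? = some b := by
        rw [List.getLast?_cons_cons] at hb
        exact hb
      obtain ⟨h3, h4⟩ := leaf_segs hC (d :: e :: r) t h2 (by simp) d b rfl hb2
      obtain ⟨h5, h6⟩ := leaf_seg hC h1
      refine ⟨?_, ?_⟩
      · intro s' hs'
        rcases List.mem_cons.1 hs' with hs' | hs'
        · rw [hs']; exact h5
        · exact h3 s' hs'
      · refine JoinedIn.trans (h6.mono ?_) (h4.mono ?_)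
        · intro y hy
          exact Set.mem_biUnion (List.mem_cons_self) hy
        · intro y hy
          unfold leafUn at hy ⊢
          rw [Set.mem_iUnion₂] at hy ⊢
          obtain ⟨s', hs', hy⟩ := hy
          exact ⟨s', List.mem_cons_of_mem _ hs', hy⟩
    · exact absurd h (by simp)

/-- the partner of an edge of a crossing -/
theorem leaf_partner (hC : LeafCtx n E P X N) {x : ℕ × ℕ} (hx : x ∈ X) {g h : ℕ}
    (hg : x.1 = g ∨ x.2 = g) (hh : ¬ (x.1 = h ∨ x.2 = h)) (hhl : h < E.length)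
    (hy : ∃ y, y ∈ P.arc g ∧ y ∈ P.arc h ∧ ∀ u < n, y ≠ P.pt u) : False := by
  obtain ⟨h1, h2, h3, h4⟩ := hC.hX x hx
  push Not at hh
  have hne : x.1 ≠ x.2 := by
    intro he
    have h5 : inc E (ed E x.1).1 x.1 = true := by unfold inc; simp
    have h6 := leaf_dsj h3 h5
    rw [← he, h5] at h6
    exact absurd h6 (by simp)
  have hc : ∃ y, y ∈ P.arc x.1 ∧ y ∈ P.arc x.2 ∧ ∀ u < n, y ≠ P.pt u := by
    obtain ⟨y, hy1, hy2⟩ := h4
    refine ⟨y, hy1, hy2, fun u hu he => ?_⟩
    have h7 := P.avoid _ h1 u hu (he ▸ hy1)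
    have h8 := P.avoid _ h2 u hu (he ▸ hy2)
    rw [leaf_dsj h3 h7] at h8
    exact Bool.false_ne_true h8
  rcases hg with hg | hg
  · subst hg
    exact hh.2 (P.one x.1 h1 x.2 h2 h hhl hne.symm hh.1.symm hc hy)
  · subst hg
    obtain ⟨y, hy1, hy2, hy3⟩ := hc
    exact hh.1 (P.one x.2 h2 x.1 h1 h hhl hne hh.2.symm ⟨y, hy2, hy1, hy3⟩ hy)

theorem leaf_lt (hC : LeafCtx n E P X N) {s : Seg} (hs : LeafSeg E X s) : s.1 < E.length := by
  rcases hs with ⟨_, h⟩ | ⟨_, h1, h2, _⟩
  · exact h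
  · obtain ⟨h3, h4, _, _⟩ := hC.hX _ h1
    rcases h2 with h2 | h2
    · rw [h2]; exact h3
    · rw [h2]; exact h4

/-- a real edge and a leg -/
theorem leaf_rl (hC : LeafCtx n E P X N) {s t : Seg} (hs : LeafSeg E X s) (ht : LeafSeg E X t)
    (ht0 : t.2.2 ≠ 0) (hsub : leafSet P s ⊆ P.arc s.1)
    (h1 : ∀ u < n, P.pt u ∈ leafSet P s → u ≠ t.2.1)
    (h2 : s.1 ≠ t.2.2 / 100 - 1) (h3 : s.1 ≠ t.2.2 % 100) :
    Disjoint (leafSet P s) (leafSet P t) := by
  rcases ht with ⟨h, _⟩ | ⟨_, h4, h5, h6⟩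
  · exact absurd h ht0
  obtain ⟨h7, _, h8⟩ := leaf_set_leg hC ht0 h4 h5 h6
  rw [Set.disjoint_left]
  intro y hy hy'
  by_cases hv : ∃ u < n, y = P.pt u
  · obtain ⟨u, hu, rfl⟩ := hv
    exact h1 u hu hy (h8 u hu hy')
  · push Not at hv
    refine leaf_partner hC h4 (g := t.1) (h := s.1) ?_ ?_ (leaf_lt hC hs) ⟨y, h7 hy', hsub hy, hv⟩
    · rcases h5 with h5 | h5
      · exact Or.inl h5.symm
      · exact Or.inr h5.symm
    · simp only
      push Not
      exact ⟨h2.symm, h3.symm⟩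

theorem leaf_okp (hC : LeafCtx n E P X N) {s t : Seg} (hs : LeafSeg E X s) (ht : LeafSeg E X t)
    (h : okp E X N s t = true) : Disjoint (leafSet P s) (leafSet P t) := by
  unfold okp at h
  simp only [beq_iff_eq] at h
  split_ifs at h with h1 h2 h2
  · -- real, real
    rw [Bool.and_eq_true] at h
    obtain ⟨hd, hn⟩ := h
    rw [leaf_set_real h1, leaf_set_real h2, Set.disjoint_left]
    intro y hy hy'
    have hv : ∀ u < n, y ≠ P.pt u := by
      intro u hu he
      have h7 := P.avoid _ (leaf_lt hC hs) u hu (he ▸ hy)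
      have h8 := P.avoid _ (leaf_lt hC ht) u hu (he ▸ hy')
      rw [leaf_dsj hd h7] at h8
      exact Bool.false_ne_true h8
    unfold ncr at hn
    simp only [Bool.or_eq_true, List.any_eq_true, Bool.and_eq_true, beq_iff_eq,
      Bool.not_eq_true', Bool.or_eq_false_iff, beq_eq_false_iff_ne] at hn
    rcases hn with ⟨x, hx, hx' | hx'⟩ | ⟨x, hx, ⟨hx1, hx2⟩ | ⟨hx1, hx2⟩⟩
    · refine hC.hN x hx ?_
      rw [hx'.1, hx'.2]
      exact ⟨y, hy, hy'⟩
    · refine hC.hN x hx ?_
      rw [hx'.1, hx'.2]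
      exact ⟨y, hy', hy⟩
    · exact leaf_partner hC hx hx1 (by push Not; exact hx2) (leaf_lt hC ht) ⟨y, hy, hy', hv⟩
    · exact leaf_partner hC hx hx1 (by push Not; exact hx2) (leaf_lt hC hs) ⟨y, hy', hy, hv⟩
  · -- real, leg
    simp only [Bool.and_eq_true, Bool.not_eq_true', Bool.or_eq_false_iff,
      beq_eq_false_iff_ne] at h
    refine leaf_rl hC hs ht h2 (by rw [leaf_set_real h1]) ?_ h.2.1 h.2.2
    intro u hu hu' he
    rw [leaf_set_real h1] at hu'
    have := P.avoid _ (leaf_lt hC hs) u hu hu'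
    rw [he, h.1] at this
    exact Bool.false_ne_true this
  · -- leg, real
    simp only [Bool.and_eq_true, Bool.not_eq_true', Bool.or_eq_false_iff,
      beq_eq_false_iff_ne] at h
    refine (leaf_rl hC ht hs h1 (by rw [leaf_set_real h2]) ?_ h.2.1 h.2.2).symm
    intro u hu hu' he
    rw [leaf_set_real h2] at hu'
    have := P.avoid _ (leaf_lt hC ht) u hu hu'
    rw [he, h.1] at this
    exact Bool.false_ne_true this
  · -- leg, leg
    simp only [Bool.and_eq_true, Bool.not_eq_true', Bool.or_eq_false_iff,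
      beq_eq_false_iff_ne, bne_iff_ne, ne_eq] at h
    rcases hs with ⟨h', _⟩ | ⟨_, h4, h5, h6⟩
    · exact absurd h' h1
    obtain ⟨h7, _, h8⟩ := leaf_set_leg hC h1 h4 h5 h6
    refine leaf_rl hC (Or.inr ⟨h1, h4, h5, h6⟩) ht h2 h7 ?_ h.2.1 h.2.2
    intro u hu hu' he
    exact h.1 ((h8 u hu hu').symm.trans he)

theorem leaf_okr (hC : LeafCtx n E P X N) {r s : List Seg} (hr : ∀ a ∈ r, LeafSeg E X a)
    (hs : ∀ a ∈ s, LeafSeg E X a) (h : okr E X N r s = true) :
    ¬ (leafUn P r ∩ leafUn P s).Nonempty := by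
  rintro ⟨y, hy, hy'⟩
  unfold leafUn at hy hy'
  rw [Set.mem_iUnion₂] at hy hy'
  obtain ⟨a, ha, hy⟩ := hy
  obtain ⟨b, hb, hy'⟩ := hy'
  unfold okr at h
  rw [List.all_eq_true] at h
  have h1 := h a ha
  rw [List.all_eq_true] at h1
  exact Set.disjoint_left.1 (leaf_okp hC (hr a ha) (hs b hb) (h1 b hb)) hy hy'

/-- the routes as a function of the pair -/
theorem leaf_routes (hC : LeafCtx n E P X N) (B : List ℕ) : ∀ (ps : List (ℕ × ℕ))
    (R : List (List ℕ)) (S : List (List Seg)), ends B ps R = true → allSegs E X R = some S →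
    ∀ p ∈ ps, ∃ l : List Seg, (p, l) ∈ ps.zip S ∧ (∀ s ∈ l, LeafSeg E X s) ∧
      ∀ a b, B[p.1]? = some a → B[p.2]? = some b → JoinedIn (leafUn P l) (leafPt P a) (leafPt P b)
  | [], _, _, _, _ => by simp
  | q :: ps, [], _, h, _ => by simp [ends] at h
  | q :: ps, r :: R, S, h, hS => by
    simp only [ends, Bool.and_eq_true, decide_eq_true_eq, beq_iff_eq] at h
    obtain ⟨⟨⟨h1, h2⟩, h3⟩, h4⟩ := h
    simp only [allSegs] at hS
    split at hS
    · rename_i s t h5 h6
      injection hS with hS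
      subst hS
      intro p hp
      rcases List.mem_cons.1 hp with hp | hp
      · subst hp
        refine ⟨s, by simp, ?_, ?_⟩
        · cases hr : r.head? with
          | none => rw [List.head?_eq_none_iff] at hr; subst hr; simp at h1
          | some a =>
            cases hr' : r.getLast? with
            | none => rw [List.getLast?_eq_none_iff] at hr'; subst hr'; simp at h1
            | some b => exact (leaf_segs hC r s h5 h1 a b hr hr').1
        · intro a b ha hb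
          exact (leaf_segs hC r s h5 h1 a b (h2.trans ha) (h3.trans hb)).2
      · obtain ⟨l, hl, hl', hl''⟩ := leaf_routes hC B ps R t h4 h6 p hp
        exact ⟨l, by simp [hl], hl', hl''⟩
    · exact absurd hS (by simp)

end ctx

theorem st_LEAF (hK5 : ST_K5) (hK33 : ST_K33) : ST_LEAF := by
  intro n E hw P X N k5 B R hX hN h
  have hC : LeafCtx n E P X N := ⟨hw, hX, hN⟩
  unfold lchk at h
  rw [Bool.and_eq_true, Bool.and_eq_true] at h
  obtain ⟨⟨hB, hends⟩, h⟩ := h
  split at h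
  · exact absurd h (by simp)
  rename_i S hS
  unfold okall at h
  rw [List.all_eq_true] at h
  have hrt := leaf_routes hC B _ R S hends hS
  choose! l hl1 hl2 hl3 using hrt
  have hdis : ∀ p ∈ (if k5 = true then prs5 else prs33), ∀ q ∈ (if k5 = true then prs5 else prs33),
      p.1 ≠ q.1 → p.1 ≠ q.2 → p.2 ≠ q.1 → p.2 ≠ q.2 → p.1 ≤ q.1 →
      ¬ (leafUn P (l p) ∩ leafUn P (l q)).Nonempty := by
    intro p hp q hq h1 h2 h3 h4 h5
    have h6 := h _ (hl1 p hp)
    rw [List.all_eq_true] at h6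
    have h7 := h6 _ (hl1 q hq)
    simp only [Bool.or_eq_true, beq_iff_eq, decide_eq_true_eq] at h7
    refine leaf_okr hC (hl2 p hp) (hl2 q hq) ?_
    rcases h7 with ((((h7 | h7) | h7) | h7) | h7) | h7
    · exact absurd h7 h1
    · exact absurd h7 h2
    · exact absurd h7 h3
    · exact absurd h7 h4
    · omega
    · exact h7
  cases k5 with
  | true =>
    simp only [if_true, beq_iff_eq] at hB hdis hl3
    have hget : ∀ i : Fin 5, B[(i : ℕ)]? = some (B.getD i 0) := by
      intro i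
      have : (i : ℕ) < B.length := by rw [hB]; exact i.2
      rw [List.getD_eq_getElem _ _ this, List.getElem?_eq_getElem this]
    have hmem : ∀ i j : Fin 5, i < j → ((i : ℕ), (j : ℕ)) ∈ prs5 := by decide
    obtain ⟨i, j, k, m, h1, h2, h3, h4, h5, h6, h7⟩ := hK5 (fun i => leafPt P (B.getD i 0))
      (fun i j => leafUn P (l ((i : ℕ), (j : ℕ)))) (fun i j hij =>
        hl3 _ (hmem i j hij) _ _ (hget i) (hget j))
    have hv : ∀ a b : Fin 5, a ≠ b → (a : ℕ) ≠ (b : ℕ) := fun a b hab h => hab (Fin.ext h)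
    rcases le_total (i : ℕ) (k : ℕ) with h8 | h8
    · exact hdis _ (hmem i j h1) _ (hmem k m h2) (hv _ _ h3) (hv _ _ h4) (hv _ _ h5) (hv _ _ h6)
        h8 h7
    · rw [Set.inter_comm] at h7
      exact hdis _ (hmem k m h2) _ (hmem i j h1) (hv _ _ h3.symm) (hv _ _ h5.symm)
        (hv _ _ h4.symm) (hv _ _ h6.symm) h8 h7
  | false =>
    simp only [Bool.false_eq_true, if_false, beq_iff_eq] at hB hdis hl3
    have hget : ∀ i : ℕ, i < 6 → B[i]? = some (B.getD i 0) := by
      intro i hi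
      have : i < B.length := by rw [hB]; exact hi
      rw [List.getD_eq_getElem _ _ this, List.getElem?_eq_getElem this]
    have hmem : ∀ i j : Fin 3, ((i : ℕ), (j : ℕ) + 3) ∈ prs33 := by decide
    obtain ⟨i, i', j, j', h1, h2, h7⟩ := hK33 (fun i => leafPt P (B.getD i 0))
      (fun j => leafPt P (B.getD ((j : ℕ) + 3) 0))
      (fun i j => leafUn P (l ((i : ℕ), (j : ℕ) + 3))) (fun i j =>
        hl3 _ (hmem i j) _ _ (hget i (by omega)) (hget _ (by omega)))
    have hv : ∀ a b : Fin 3, a ≠ b → (a : ℕ) ≠ (b : ℕ) := fun a b hab h => hab (Fin.ext h)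
    have h1' := hv _ _ h1
    have h2' := hv _ _ h2
    have hi := i.2
    have hi' := i'.2
    rcases le_total (i : ℕ) (i' : ℕ) with h8 | h8
    · exact hdis _ (hmem i j) _ (hmem i' j') (by simpa using h1') (by simp only; omega)
        (by simp only; omega) (by simp only; omega) h8 h7
    · rw [Set.inter_comm] at h7
      exact hdis _ (hmem i' j') _ (hmem i j) (by simp only; omega) (by simp only; omega)
        (by simp only; omega) (by simp only; omega) h8 h7

end OPC
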