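import Pool.Agent.Helper94.OPC.RAD
import Pool.Agent.Helper94.OPC.EXT
import Pool.Agent.Helper74.OPC.K5
import Pool.Agent.Helper21.OPC.K33
import Pool.Agent.Helper84.OPC.LEAF
import Pool.Agent.Helper11.OPC.TREE
import Pool.Agent.Helper11.OPC.NOK
import Pool.Agent.Helper11.OPC.NOW
import Pool.Agent.Helper55.OPC.PICT

set_option autoImplicit false

/-!
MP_ec87e6_co: forbidden subgraphs of 1-planar graphs (topological definition of 1-planarity).
-/

namespace OPC

theorem all_TREE : ST_TREE := st_TREE (st_LEAF (st_K5 st_RAD st_EXT) (st_K33 st_RAD st_EXT))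

/-- 1-planar graphs do not contain `K₄ ∨ 3 K₁` -/
theorem all_NOK : ST_NOK := st_NOK all_TREE st_PICT

/-- 1-planar graphs do not contain `K₅` with three vertices adjacent to different sets of four of
its vertices -/
theorem all_NOW : ST_NOW := st_NOW all_TREE st_PICT

end OPC
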