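import Mathlib

set_option autoImplicit false

/-!
MP_ec87e6_co: definitions of the final statement: chordal graphs, drawings in the plane, 1-planar
graphs, toughness.
-/

open scoped ENNReal

namespace OPC

/-- every cycle of length at least four has a chord -/
def Chordal {V : Type} (G : SimpleGraph V) : Prop :=
  ∀ (v : V) (c : G.Walk v v), c.IsCycle → 4 ≤ c.length →
    ∃ x ∈ c.support, ∃ y ∈ c.support, G.Adj x y ∧ s(x, y) ∉ c.edges

/-- a drawing in the plane: vertices are distinct points, edges are arcs joining their ends and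
containing no other vertex -/
structure Drawing {V : Type} (G : SimpleGraph V) where
  pt : V → ℝ × ℝ
  arc : Sym2 V → Set (ℝ × ℝ)
  inj : Function.Injective pt
  path : ∀ u v, G.Adj u v → ∃ γ : unitInterval → ℝ × ℝ, Continuous γ ∧ Function.Injective γ ∧
    γ 0 = pt u ∧ γ 1 = pt v ∧ Set.range γ = arc s(u, v)
  avoid : ∀ e ∈ G.edgeSet, ∀ w, pt w ∈ arc e → w ∈ e

/-- two different edges cross if they share a point which is not a vertex -/
def Drawing.Cross {V : Type} {G : SimpleGraph V} (D : Drawing G) (e f : Sym2 V) : Prop :=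
  e ≠ f ∧ ∃ x, x ∈ D.arc e ∧ x ∈ D.arc f ∧ x ∉ Set.range D.pt

/-- there is a drawing in which every edge is crossed by at most one other edge -/
def OnePlanar {V : Type} (G : SimpleGraph V) : Prop :=
  ∃ D : Drawing G, ∀ e ∈ G.edgeSet, ∀ f ∈ G.edgeSet, ∀ g ∈ G.edgeSet,
    D.Cross e f → D.Cross e g → f = g

/-- number of components of `G - X` -/
noncomputable def comps {V : Type} (G : SimpleGraph V) (X : Finset V) : ℕ :=
  Nat.card (G.induce {v | v ∉ X}).ConnectedComponent

/-- toughness, the minimum of `|X| / c(G - X)` over nonempty sets `X` with `c(G - X) > 1`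
(`∞` if there is no such set) -/
noncomputable def toughness {V : Type} (G : SimpleGraph V) : ℝ≥0∞ :=
  ⨅ (X : Finset V) (_ : X.Nonempty ∧ 1 < comps G X), (X.card : ℝ≥0∞) / (comps G X : ℝ≥0∞)

end OPC
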