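import Pool.Agent.Helper84.OPC.Defs

set_option autoImplicit false

/-!
MP_ec87e6_co: statements of the modules.  Proofs: /team-store/opc_blueprint.md
-/

open Finset

namespace OPC

/-! ### A. Topology -/

/-- RAD: topological Radon theorem -/
def ST_RAD : Prop := ∀ (N : ℕ) (f : (Fin (N + 2) → ℝ) → (Fin N → ℝ)), Continuous f →
  ∃ x y : Fin (N + 2) → ℝ, x ∈ stdSimplex ℝ (Fin (N + 2)) ∧ y ∈ stdSimplex ℝ (Fin (N + 2)) ∧
    (∀ i, x i = 0 ∨ y i = 0) ∧ f x = f y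

/-- EXT: extension of paths to a continuous function -/
def ST_EXT : Prop := ∀ (n : ℕ) (p : Fin n → ℝ × ℝ) (A : Fin n → Fin n → Set (ℝ × ℝ)),
  (∀ i j, i < j → JoinedIn (A i j) (p i) (p j)) →
  ∃ φ : (Fin n → ℝ) → ℝ × ℝ, Continuous φ ∧ (∀ i, φ (Pi.single i 1) = p i) ∧
    ∀ i j, i < j → ∀ x ∈ stdSimplex ℝ (Fin n), (∀ k, k ≠ i → k ≠ j → x k = 0) → φ x ∈ A i j

/-- K5: `K₅` is not planar (van Kampen-Flores) -/
def ST_K5 : Prop := ∀ (p : Fin 5 → ℝ × ℝ) (A : Fin 5 → Fin 5 → Set (ℝ × ℝ)),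
  (∀ i j, i < j → JoinedIn (A i j) (p i) (p j)) →
  ∃ i j k l : Fin 5, i < j ∧ k < l ∧ i ≠ k ∧ i ≠ l ∧ j ≠ k ∧ j ≠ l ∧ (A i j ∩ A k l).Nonempty

/-- K33: `K₃,₃` is not planar -/
def ST_K33 : Prop := ∀ (p q : Fin 3 → ℝ × ℝ) (A : Fin 3 → Fin 3 → Set (ℝ × ℝ)),
  (∀ i j, JoinedIn (A i j) (p i) (q j)) →
  ∃ i i' j j' : Fin 3, i ≠ i' ∧ j ≠ j' ∧ (A i j ∩ A i' j').Nonempty

/-- LEAF: a leaf of a decision tree is contradictory -/
def ST_LEAF : Prop := ∀ (n : ℕ) (E : List (ℕ × ℕ)), wfE n E = true → ∀ (P : Pict n E)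
  (X N : List (ℕ × ℕ)) (k5 : Bool) (B : List ℕ) (R : List (List ℕ)),
  (∀ x ∈ X, x.1 < E.length ∧ x.2 < E.length ∧ dsj E x.1 x.2 = true ∧
    (P.arc x.1 ∩ P.arc x.2).Nonempty) →
  (∀ x ∈ N, ¬ (P.arc x.1 ∩ P.arc x.2).Nonempty) → lchk E k5 B R X N = true → False

/-- TREE: decision trees are sound -/
def ST_TREE : Prop := ∀ (n : ℕ) (E : List (ℕ × ℕ)), wfE n E = true → ∀ t : Tree,
  tchk E t [] [] = true → Pict n E → False

/-- PICT: from drawings to pictures -/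
def ST_PICT : Prop := ∀ (V : Type) (G : SimpleGraph V), OnePlanar G →
  ∀ (n : ℕ) (E : List (ℕ × ℕ)), wfE n E = true → ∀ ψ : ℕ → V,
    (∀ i < n, ∀ j < n, ψ i = ψ j → i = j) → (∀ x ∈ E, G.Adj (ψ x.1) (ψ x.2)) → Nonempty (Pict n E)

/-- NOK: 1-planar graphs do not contain `K₄ ∨ 3 K₁` -/
def ST_NOK : Prop := ∀ (V : Type) [Fintype V] [DecidableEq V] (G : SimpleGraph V), OnePlanar G →
  NoK G

/-- NOW: 1-planar graphs do not contain the second graph -/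
def ST_NOW : Prop := ∀ (V : Type) [Fintype V] [DecidableEq V] (G : SimpleGraph V), OnePlanar G →
  NoW G

/-! ### B. Paths and cuts in bags -/

/-- PATH: composition of paths -/
def ST_PATH : Prop := ∀ (V : Type) [Fintype V] [DecidableEq V] (G : SimpleGraph V),
  (∀ a b : V, G.Adj a b → PC G a b ∅) ∧ (∀ (a b : V) (I : Finset V), PC G a b I → PC G b a I) ∧
  ∀ (a c b : V) (I J : Finset V), PC G a c I → PC G c b J → a ≠ b → a ∉ J → b ∉ I → Disjoint I J →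
    PC G a b (insert c (I ∪ J))

/-- HAM: closing a path -/
def ST_HAM : Prop := ∀ (V : Type) [Fintype V] [DecidableEq V] (G : SimpleGraph V) (a b : V)
  (I : Finset V), PC G a b I → G.Adj b a → insert a (insert b I) = univ → 3 ≤ Fintype.card V →
    G.IsHamiltonian

/-- GO: the search for paths is sound -/
def ST_GO : Prop := ∀ (V : Type) [Fintype V] [DecidableEq V] (G : SimpleGraph V) (r : ℕ) (κ : ℕ → V),
  r ≤ 6 → (∀ i < r, ∀ j < r, κ i = κ j → i = j) → (∀ i < r, ∀ j < r, i ≠ j → G.Adj (κ i) (κ j)) →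
  ∀ (trs : List Tr) (Ds : List (Finset V)), List.Forall₂ (RTr G κ) trs Ds →
    Ds.Pairwise Disjoint → (∀ D ∈ Ds, ∀ i < r, κ i ∉ D) →
    ∀ f cur b rem : ℕ, cur < r → b < r → cur ≠ b → rem < 2 ^ r → rem.testBit cur = false →
      rem.testBit b = false → go f cur b rem trs = true → PC G (κ cur) (κ b) (ks κ rem ∪ un Ds)

/-- VIOL: violations are impossible in a 3/2-tough graph -/
def ST_VIOL : Prop := ∀ (V : Type) [Fintype V] [DecidableEq V] (G : SimpleGraph V), Tough G →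
  ∀ (C T : Finset V) (r t : ℕ) (κ : ℕ → V) (cs : List Cu) (Ds : List (Finset V)),
    Bag G C T r t κ Ds → List.Forall₂ (RCu G κ) cs Ds → viol r t cs = true → False

/-- CUT: computed cuts are cuts -/
def ST_CUT : Prop := ∀ (V : Type) [Fintype V] [DecidableEq V] (G : SimpleGraph V)
  (C T : Finset V) (r t : ℕ) (κ : ℕ → V) (cs : List Cu) (Ds : List (Finset V)),
    Bag G C T r t κ Ds → List.Forall₂ (RCu G κ) cs Ds → ∀ x : ℕ × ℕ, x.1 < 2 ^ t →
      cutOK r t cs x = true → Cut G C (ks κ x.1) x.2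

/-- RV: violations at a separator with four vertices are impossible in a 3/2-tough graph -/
def ST_RV : Prop := ∀ (V : Type) [Fintype V] [DecidableEq V] (G : SimpleGraph V), Tough G →
  ∀ (C C' T : Finset V) (τ : ℕ → V), Piece G C T → Piece G C' T → Disjoint C C' →
    C ∪ C' ∪ T = univ → (∀ i < 4, ∀ j < 4, τ i = τ j → i = j) → T = (range 4).image τ →
    ∀ cs : List Cu, List.Forall₂ (RCu G τ) cs [C, C'] → rviol cs = true → False

/-- CHK: what `chk` proves (pure computation) -/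
def ST_CHK : Prop := ∀ (r t : ℕ) (good : List Cu → List Tr → Bool) (L : List (Cu × List Tr))
  (n : ℕ) (acc : List (Cu × List Tr)), chk r t good L n acc = true →
  ∀ gs : List (Cu × List Tr), gs.length ≤ n → (∀ g ∈ gs, g ∈ L) →
    viol r t ((gs ++ acc).map Prod.fst) = true ∨
    ∀ trs : List Tr, List.Forall₂ (fun tr (g : Cu × List Tr) => tr ∈ g.2) trs (gs ++ acc) →
      good ((gs ++ acc).map Prod.fst) trs = true

/-- CMP: the computations -/
def ST_CMP : Prop :=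
  chk 4 3 (fun _ => good3 4) (kids3 4 3) 1 [] = true ∧
  chk 5 3 (fun _ => good3 5) (kids3 5 3 ++ kids4 [0, 1, 2, 3, 4]) 2 [] = true ∧
  chk 6 3 (fun _ => good3 6) (kids3 6 3) 3 [] = true ∧
  chk 5 4 good4 (kids3 5 4) 2 [] = true ∧
  ((kids4 [0, 1, 2, 3]).all fun g => chk 5 4 good4 (kids3 5 4) 1 [g]) = true ∧
  rchk = true ∧ wf = true

/-- KID3: kids with three attachments as elements of `kids3` -/
def ST_KID3 : Prop := ∀ (V : Type) [Fintype V] [DecidableEq V] (G : SimpleGraph V) (κ : ℕ → V)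
  (r t : ℕ) (D : Finset V), r ≤ 6 → (∀ i < r, ∀ j < r, κ i = κ j → i = j) → K3 G κ r t D →
    (∀ T, Piece G D T → T.card = 3 → Cl3 G D T) →
    ∃ g ∈ kids3 r t, ∃ tr ∈ g.2, RCu G κ g.1 D ∧ RTr G κ tr D

/-- KID4: kids with four attachments as elements of `kids4` -/
def ST_KID4 : Prop := ∀ (V : Type) [Fintype V] [DecidableEq V] (G : SimpleGraph V) (κ : ℕ → V)
  (x : ℕ) (D : Finset V), (∀ i < 5, ∀ j < 5, κ i = κ j → i = j) → K4 G κ x D →
    (∀ T, Piece G D T → T.card = 4 → Cl4 G D T) →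
    ∃ g ∈ kids4 [x], ∃ tr ∈ g.2, RCu G κ g.1 D ∧ RTr G κ tr D

/-! ### C. Structure of chordal graphs -/

/-- FULL: in a chordal graph some vertex of a component of `G - T` is adjacent to the whole clique
`T` -/
def ST_FULL : Prop := ∀ (V : Type) [Fintype V] [DecidableEq V] (G : SimpleGraph V), Chordal G →
  ∀ C T : Finset V, C.Nonempty → ConnS G C → Disjoint C T → (∀ s ∈ T, ∀ t ∈ T, s ≠ t → G.Adj s t) →
    (∀ t ∈ T, ∃ c ∈ C, G.Adj c t) → ∃ w ∈ C, ∀ t ∈ T, G.Adj w t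

/-- COMP: components of a set of vertices -/
def ST_COMP : Prop := ∀ (V : Type) [Fintype V] [DecidableEq V] (G : SimpleGraph V) (S : Finset V),
  ∃ Ds : List (Finset V), un Ds = S ∧ Ds.Pairwise Disjoint ∧
    ∀ D ∈ Ds, D.Nonempty ∧ ConnS G D ∧ ∀ d ∈ D, ∀ b ∈ S, G.Adj d b → b ∈ D

/-- CARD: pieces have three or four attachments -/
def ST_CARD : Prop := ∀ (V : Type) [Fintype V] [DecidableEq V] (G : SimpleGraph V), Chordal G →
  Tough G → NoK G → ∀ C T : Finset V, Piece G C T → T.card = 3 ∨ T.card = 4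

/-- MAXK: a maximal clique in a piece -/
def ST_MAXK : Prop := ∀ (V : Type) [Fintype V] [DecidableEq V] (G : SimpleGraph V), Chordal G →
  NoK G → ∀ C T : Finset V, Piece G C T → ∃ W ⊆ C, W.Nonempty ∧
    (∀ a ∈ T ∪ W, ∀ b ∈ T ∪ W, a ≠ b → G.Adj a b) ∧ (∀ v ∈ C, v ∉ W → ∃ a ∈ T ∪ W, ¬ G.Adj v a) ∧
    (T ∪ W).card ≤ 6 ∧ (T.card = 4 → W.card = 1)

/-- CHILD: the components of the rest are pieces -/
def ST_CHILD : Prop := ∀ (V : Type) [Fintype V] [DecidableEq V] (G : SimpleGraph V), Chordal G →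
  NoK G → ∀ C T W : Finset V, Piece G C T → W ⊆ C → W.Nonempty →
    (∀ a ∈ T ∪ W, ∀ b ∈ T ∪ W, a ≠ b → G.Adj a b) → (∀ v ∈ C, v ∉ W → ∃ a ∈ T ∪ W, ¬ G.Adj v a) →
    ∀ D : Finset V, D ⊆ C \ W → D.Nonempty → ConnS G D →
      (∀ d ∈ D, ∀ b ∈ C \ W, G.Adj d b → b ∈ D) →
      ∃ S ⊆ T ∪ W, Piece G D S ∧ S ≠ T ∪ W ∧ (S ∩ W).Nonempty ∧ (6 ≤ (T ∪ W).card → S.card ≤ 3)

/-- CNT: number of kids -/
def ST_CNT : Prop := ∀ (V : Type) [Fintype V] [DecidableEq V] (G : SimpleGraph V), Tough G →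
  ∀ (C T : Finset V) (r t : ℕ) (κ : ℕ → V) (Ds : List (Finset V)), Bag G C T r t κ Ds →
    (∀ D ∈ Ds, D.Nonempty) → 2 ≤ r → 3 * (Ds.length + 1) ≤ 2 * r

/-- TWO: a piece with four attachments has at most one kid with four attachments -/
def ST_TWO : Prop := ∀ (V : Type) [Fintype V] [DecidableEq V] (G : SimpleGraph V), Chordal G →
  Tough G → NoW G → ∀ (κ : ℕ → V) (C : Finset V), (∀ i < 5, ∀ j < 5, κ i = κ j → i = j) →
    (∀ i < 5, ∀ j < 5, i ≠ j → G.Adj (κ i) (κ j)) → Piece G C ((range 4).image κ) →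
    ∀ (x x' : ℕ) (D D' : Finset V), x < 4 → x' < 4 → D ⊆ C → D' ⊆ C → Disjoint D D' →
      K4 G κ x D → K4 G κ x' D' → False

/-- BAG: bags of pieces -/
def ST_BAG : Prop := ∀ (V : Type) [Fintype V] [DecidableEq V] (G : SimpleGraph V), Chordal G →
  Tough G → NoK G → NoW G → ∀ (C T : Finset V) (t : ℕ) (τ : ℕ → V), Piece G C T → T.card = t →
    (∀ i < t, ∀ j < t, τ i = τ j → i = j) → T = (range t).image τ →
    ∃ (r : ℕ) (κ : ℕ → V) (D3 D4 : List (Finset V)), Bag G C T r t κ (D3 ++ D4) ∧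
      (∀ i < t, κ i = τ i) ∧ 3 * ((D3 ++ D4).length + 1) ≤ 2 * r ∧ (t = 4 → r = 5) ∧
      (∀ D ∈ D3, K3 G κ r t D) ∧ (D4 ≠ [] → r = 5) ∧ (∀ D ∈ D4, ∃ x, (t = 4 → x < 4) ∧ K4 G κ x D) ∧
      (t = 4 → D4.length ≤ 1) ∧ ∀ D ∈ D3 ++ D4, D.card < C.card

/-- IND3: induction step, three attachments -/
def ST_IND3 : Prop := ∀ (V : Type) [Fintype V] [DecidableEq V] (G : SimpleGraph V), Chordal G →
  Tough G → NoK G → NoW G → ∀ C T : Finset V, Piece G C T → T.card = 3 →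
    (∀ D S : Finset V, D.card < C.card → Piece G D S → (S.card = 3 → Cl3 G D S) ∧
      (S.card = 4 → Cl4 G D S)) → Cl3 G C T

/-- IND4: induction step, four attachments -/
def ST_IND4 : Prop := ∀ (V : Type) [Fintype V] [DecidableEq V] (G : SimpleGraph V), Chordal G →
  Tough G → NoK G → NoW G → ∀ C T : Finset V, Piece G C T → T.card = 4 →
    (∀ D S : Finset V, D.card < C.card → Piece G D S → (S.card = 3 → Cl3 G D S) ∧
      (S.card = 4 → Cl4 G D S)) → Cl4 G C T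

/-- SPLIT: a separator -/
def ST_SPLIT : Prop := ∀ (V : Type) [Fintype V] [DecidableEq V] (G : SimpleGraph V), Chordal G →
  Tough G → NoK G → (∃ a b, a ≠ b ∧ ¬ G.Adj a b) → ∃ C C' T : Finset V, Piece G C T ∧ Piece G C' T ∧
    Disjoint C C' ∧ C ∪ C' ∪ T = univ

/-- ROOT: Hamiltonian cycles -/
def ST_ROOT : Prop := ∀ (V : Type) [Fintype V] [DecidableEq V] (G : SimpleGraph V), Chordal G →
  Tough G → NoK G → NoW G → (∃ a b, a ≠ b ∧ ¬ G.Adj a b) → G.IsHamiltonian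

/-- TGH: from toughness to `Tough` -/
def ST_TGH : Prop := ∀ (V : Type) [Fintype V] [DecidableEq V] (G : SimpleGraph V) (t : ℚ),
  3 / 2 ≤ t → HasToughness G t → Tough G ∧ ∃ a b, a ≠ b ∧ ¬ G.Adj a b

/-- TOP: the final theorem -/
def ST_TOP : Prop := ∀ (V : Type) [Fintype V] [DecidableEq V] (G : SimpleGraph V) (t : ℚ),
  OnePlanar G → Chordal G → 3 / 2 ≤ t → HasToughness G t → G.IsHamiltonian

end OPC
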